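import Mathlib

/-!
# Dirichlet means over the primes

`HasPrimeMean S f m`: the series `∑ f(p) p^{-s}` over the primes `p ∉ S` converges absolutely for `s > 1` and is
asymptotic to `m · log (1 / (s - 1))` as `s → 1+`.
-/

set_option autoImplicit false

namespace Pool.Agent.Helper717Ico

open Filter Topology

/-- The primes outside the finite set `S`. -/
abbrev PrimeOut (S : Finset ℕ) : Type := {p : ℕ // p.Prime ∧ p ∉ S}

/-- The function `f` has the Dirichlet mean `m` over the primes outside `S`: for real `s > 1` the series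
`∑_{p ∉ S} f(p) p^{-s}` converges absolutely, and its quotient by `log (1 / (s - 1))` tends to `m` as `s → 1+`. -/
def HasPrimeMean (S : Finset ℕ) (f : ℕ → ℂ) (m : ℂ) : Prop :=
  (∀ s : ℝ, 1 < s → Summable fun p : PrimeOut S => f p * (((p : ℕ) : ℝ) ^ (-s) : ℝ)) ∧
    Tendsto (fun s : ℝ => (∑' p : PrimeOut S, f p * (((p : ℕ) : ℝ) ^ (-s) : ℝ)) / (Real.log (1 / (s - 1)) : ℝ))
      (𝓝[>] 1) (𝓝 m)

variable {S : Finset ℕ}

theorem HasPrimeMean.add {f g : ℕ → ℂ} {m n : ℂ} (hf : HasPrimeMean S f m) (hg : HasPrimeMean S g n) :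
    HasPrimeMean S (fun p => f p + g p) (m + n) := by
  refine ⟨fun s hs => ?_, ?_⟩
  · have := (hf.1 s hs).add (hg.1 s hs)
    refine this.congr fun p => ?_
    ring
  · refine (hf.2.add hg.2).congr' ?_
    filter_upwards [self_mem_nhdsWithin] with s hs
    rw [← add_div, ← (hf.1 s hs).tsum_add (hg.1 s hs)]
    congr 1
    exact tsum_congr fun p => by ring

theorem HasPrimeMean.const_mul {f : ℕ → ℂ} {m : ℂ} (c : ℂ) (hf : HasPrimeMean S f m) :
    HasPrimeMean S (fun p => c * f p) (c * m) := by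
  refine ⟨fun s hs => ?_, ?_⟩
  · have := (hf.1 s hs).mul_left c
    refine this.congr fun p => ?_
    ring
  · refine (hf.2.const_mul c).congr' ?_
    filter_upwards [self_mem_nhdsWithin] with s hs
    rw [← mul_div_assoc, ← tsum_mul_left]
    congr 1
    exact tsum_congr fun p => by ring

theorem HasPrimeMean.congr {f g : ℕ → ℂ} {m n : ℂ} (hf : HasPrimeMean S f m)
    (h : ∀ p : ℕ, p.Prime → p ∉ S → f p = g p) (hmn : m = n) : HasPrimeMean S g n := by
  subst hmn
  have e : ∀ s : ℝ, (fun p : PrimeOut S => f p * (((p : ℕ) : ℝ) ^ (-s) : ℝ)) =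
      fun p : PrimeOut S => g p * (((p : ℕ) : ℝ) ^ (-s) : ℝ) := fun s => funext fun p => by
    rw [h p p.2.1 p.2.2]
  refine ⟨fun s hs => ?_, ?_⟩
  · rw [← e s]; exact hf.1 s hs
  · have := hf.2
    simp only [e] at this
    exact this

theorem HasPrimeMean.unique {f : ℕ → ℂ} {m n : ℂ} (hf : HasPrimeMean S f m) (hg : HasPrimeMean S f n) : m = n :=
  tendsto_nhds_unique hf.2 hg.2

theorem HasPrimeMean.zero : HasPrimeMean S (fun _ => 0) 0 := by
  refine ⟨fun s hs => ?_, ?_⟩
  · simp only [zero_mul]; exact summable_zero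
  · simp

theorem HasPrimeMean.sum {ι : Type*} (T : Finset ι) {f : ι → ℕ → ℂ} {m : ι → ℂ}
    (h : ∀ i ∈ T, HasPrimeMean S (f i) (m i)) :
    HasPrimeMean S (fun p => ∑ i ∈ T, f i p) (∑ i ∈ T, m i) := by
  classical
  induction T using Finset.induction_on with
  | empty => simpa using HasPrimeMean.zero
  | insert i T hi ih =>
    simp only [Finset.sum_insert hi]
    exact (h i (Finset.mem_insert_self i T)).add (ih fun j hj => h j (Finset.mem_insert_of_mem hj))

theorem log_pos_eventually : ∀ᶠ s : ℝ in 𝓝[>] 1, 0 < Real.log (1 / (s - 1)) := by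
  have : Set.Ioo (1 : ℝ) 2 ∈ 𝓝[>] (1 : ℝ) := Ioo_mem_nhdsGT (by norm_num)
  filter_upwards [this] with s hs
  apply Real.log_pos
  rw [lt_div_iff₀ (by linarith [hs.1])]
  linarith [hs.2]

/-- A function with nonnegative real part has a mean with nonnegative real part. -/
theorem HasPrimeMean.re_nonneg {f : ℕ → ℂ} {m : ℂ} (hf : HasPrimeMean S f m)
    (h : ∀ p : ℕ, p.Prime → p ∉ S → 0 ≤ (f p).re) : 0 ≤ m.re := by
  have h1 : Tendsto (fun s : ℝ =>
      ((∑' p : PrimeOut S, f p * (((p : ℕ) : ℝ) ^ (-s) : ℝ)) / (Real.log (1 / (s - 1)) : ℝ)).re)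
      (𝓝[>] 1) (𝓝 m.re) := (Complex.continuous_re.tendsto m).comp hf.2
  refine ge_of_tendsto h1 ?_
  filter_upwards [self_mem_nhdsWithin, log_pos_eventually] with s hs hl
  rw [Complex.div_ofReal_re, Complex.re_tsum (hf.1 s hs)]
  refine div_nonneg (tsum_nonneg fun p => ?_) hl.le
  rw [Complex.re_mul_ofReal]
  exact mul_nonneg (h p p.2.1 p.2.2) (Real.rpow_nonneg (Nat.cast_nonneg _) _)

/-- A function bounded by a constant times a nonnegative function of mean zero has mean zero. -/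
theorem HasPrimeMean.of_bounded {f g : ℕ → ℂ} (hg : HasPrimeMean S g 0) (C : ℝ)
    (h : ∀ p : ℕ, p.Prime → p ∉ S → ‖f p‖ ≤ C * (g p).re) : HasPrimeMean S f 0 := by
  have hre : ∀ s : ℝ, 1 < s → Summable fun p : PrimeOut S => (C * (g p).re) * ((p : ℕ) : ℝ) ^ (-s) := by
    intro s hs
    have h1 : Summable fun p : PrimeOut S => (g p * (((p : ℕ) : ℝ) ^ (-s) : ℝ)).re :=
      (Complex.hasSum_re (hg.1 s hs).hasSum).summable
    refine (h1.mul_left C).congr fun p => ?_
    rw [Complex.re_mul_ofReal]; ring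
  have hb : ∀ (s : ℝ) (p : PrimeOut S), ‖f p * (((p : ℕ) : ℝ) ^ (-s) : ℝ)‖ ≤
      (C * (g p).re) * ((p : ℕ) : ℝ) ^ (-s) := by
    intro s p
    rw [norm_mul, Complex.norm_real, Real.norm_of_nonneg (Real.rpow_nonneg (Nat.cast_nonneg _) _)]
    exact mul_le_mul_of_nonneg_right (h p p.2.1 p.2.2) (Real.rpow_nonneg (Nat.cast_nonneg _) _)
  refine ⟨fun s hs => Summable.of_norm_bounded (hre s hs) (hb s), ?_⟩
  have h1 : Tendsto (fun s : ℝ => C *
      ((∑' p : PrimeOut S, g p * (((p : ℕ) : ℝ) ^ (-s) : ℝ)) / (Real.log (1 / (s - 1)) : ℝ)).re)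
      (𝓝[>] 1) (𝓝 0) := by
    have := ((Complex.continuous_re.tendsto (0 : ℂ)).comp hg.2).const_mul C
    simpa using this
  refine squeeze_zero_norm' ?_ h1
  filter_upwards [self_mem_nhdsWithin, log_pos_eventually] with s hs hl
  rw [norm_div, Complex.norm_real, Real.norm_of_nonneg hl.le, Complex.div_ofReal_re, Complex.re_tsum (hg.1 s hs),
    ← mul_div_assoc, ← tsum_mul_left]
  refine div_le_div_of_nonneg_right ?_ hl.le
  refine (norm_tsum_le_tsum_norm (Summable.of_norm_bounded (hre s hs) (hb s)).norm).trans ?_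
  have e : (fun p : PrimeOut S => C * (g p * (((p : ℕ) : ℝ) ^ (-s) : ℝ)).re) =
      fun p : PrimeOut S => (C * (g p).re) * ((p : ℕ) : ℝ) ^ (-s) := funext fun p => by
    rw [Complex.re_mul_ofReal]; ring
  rw [e]
  exact (Summable.of_norm_bounded (hre s hs) (hb s)).norm.tsum_le_tsum (hb s) (hre s hs)

end Pool.Agent.Helper717Ico
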