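import Mathlib
import Pool.Agent.Helper717_Ico.Mean

/-!
# Hecke eigenvalue systems of weight zero with algebraic integer eigenvalues

The definitions used in the statement of the main theorem, and the moments that follow from them.
-/

set_option autoImplicit false

namespace Pool.Agent.Helper717Ico

open Filter Topology

/-- `z_p = a_p² / ω(p)`. If `α, β` are the Satake parameters of `π_p` (so `a_p = α + β`, `ω(p) = α β`) then
`z_p = (α + β)² / (α β)`, and `z_p = |a_p|²` when `π_p` is unitary. -/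
def normSq {E : Type*} [Field E] {N : ℕ} (ω : DirichletCharacter E N) (a : ℕ → E) (p : ℕ) : E :=
  a p ^ 2 / ω (p : ZMod N)

/-- The traces of the Satake classes at `p` of the three lifts of `π` used below, in terms of `z = z_p`:
the trivial representation `1` of `GL_1`; the adjoint (Gelbart-Jacquet) lift `Ad π = Sym² π ⊗ ω⁻¹` to `GL_3`, with
trace `(α² + α β + β²) / (α β) = z - 1`; and the Kim lift `Sym⁴ π ⊗ ω⁻²` to `GL_5`, with the trace
`(α⁴ + α³ β + α² β² + α β³ + β⁴) / (α β)² = z² - 3 z + 1`. -/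
def liftTrace {E : Type*} [Field E] (z : E) : Fin 3 → E := ![1, z - 1, z ^ 2 - 3 * z + 1]

open scoped Classical in
/-- **Arithmetic systems of Hecke eigenvalues.** `a p` (`p ∉ S` prime) are algebraic integers of the number field `E`
such that for every embedding `σ : E → ℂ` the numbers `σ (a p)` are the Hecke eigenvalues at `p ∉ S` of a unitary
cuspidal automorphic representation `π^σ` of `GL_2` over `ℚ`, unramified outside `S`, with central character `σ ∘ ω`,
which is not solvable polyhedral. The fields list exactly what is used of the `π^σ`; all of it is known for them. -/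
structure IsArithmeticSystem {E : Type*} [Field E] [NumberField E] (S : Finset ℕ) (N : ℕ)
    (ω : DirichletCharacter E N) (a : ℕ → E) : Prop where
  /-- The central character is unramified outside `S`. -/
  coprime : ∀ p : ℕ, p.Prime → p ∉ S → p.Coprime N
  /-- The Hecke eigenvalues are algebraic integers. -/
  integral : ∀ p : ℕ, p.Prime → p ∉ S → IsIntegral ℤ (a p)
  /-- `π^σ` is unitary with the central character `σ ∘ ω`: its contragredient is `π^σ ⊗ (σ ∘ ω)⁻¹`. -/
  unitary : ∀ (σ : E →+* ℂ) (p : ℕ), p.Prime → p ∉ S →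
    (starRingEnd ℂ) (σ (a p)) * σ (ω (p : ZMod N)) = σ (a p)
  /-- Rankin-Selberg theory (Jacquet-Shalika) for the lifts `1`, `Ad π^σ` (Gelbart-Jacquet), `Sym⁴ π^σ ⊗ ω⁻²`
  (Kim), which are self-dual and cuspidal as `π^σ` is not solvable polyhedral (Kim-Shahidi), with strong multiplicity
  one: `L(s, Π × Π')` has a simple pole at `s = 1` when `Π = Π'` and no zero or pole there otherwise. -/
  rankin_selberg : ∀ (σ τ : E →+* ℂ) (i j : Fin 3),
    HasPrimeMean S (fun p => σ (liftTrace (normSq ω a p) i) * τ (liftTrace (normSq ω a p) j))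
      (if i = j ∧ ∀ p : ℕ, p.Prime → p ∉ S →
        σ (liftTrace (normSq ω a p) i) = τ (liftTrace (normSq ω a p) j) then 1 else 0)
  /-- The `L`-functions of the twists of the three lifts by a Dirichlet character `χ ≠ 1` have no zero or pole
  at `s = 1`. -/
  twists : ∀ (M : ℕ) (χ : DirichletCharacter ℂ M), 0 < M → χ ≠ 1 → ∀ (σ : E →+* ℂ) (i : Fin 3),
    HasPrimeMean S (fun p => χ (p : ZMod M) * σ (liftTrace (normSq ω a p) i)) 0
  /-- Multiplicity one for `SL_2` (Ramakrishnan): if `Ad π^σ` and `Ad π^τ` are isomorphic then `π^τ` is a twist of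
  `π^σ` by a Dirichlet character. -/
  multiplicity_one : ∀ σ τ : E →+* ℂ,
    (∀ p : ℕ, p.Prime → p ∉ S → σ (normSq ω a p) = τ (normSq ω a p)) →
    ∃ (M : ℕ) (χ : DirichletCharacter ℂ M), 0 < M ∧
      ∀ p : ℕ, p.Prime → p ∉ S → τ (a p) = χ (p : ZMod M) * σ (a p)

section moments

variable {E : Type*} [Field E] [NumberField E] {S : Finset ℕ} {N : ℕ} {ω : DirichletCharacter E N} {a : ℕ → E}

/-- `y_p = z_p - 1`, the trace of `Ad π_p`. -/
def yy (ω : DirichletCharacter E N) (a : ℕ → E) (p : ℕ) : E := normSq ω a p - 1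

variable (h : IsArithmeticSystem S N ω a)

include h

theorem mean_one : HasPrimeMean S (fun _ => 1) 1 := by
  obtain ⟨σ⟩ : Nonempty (E →+* ℂ) := inferInstance
  refine (h.rankin_selberg σ σ 0 0).congr (fun p _ _ => ?_) ?_
  · simp [liftTrace]
  · simp

theorem mean_ij (σ τ : E →+* ℂ) (i j : Fin 3) (hij : i ≠ j) :
    HasPrimeMean S (fun p => σ (liftTrace (normSq ω a p) i) * τ (liftTrace (normSq ω a p) j)) 0 := by
  have := h.rankin_selberg σ τ i j
  simpa [hij] using this

theorem mean_ii (σ : E →+* ℂ) (i : Fin 3) :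
    HasPrimeMean S (fun p => σ (liftTrace (normSq ω a p) i) * σ (liftTrace (normSq ω a p) i)) 1 := by
  have := h.rankin_selberg σ σ i i
  simpa using this

theorem mean_ne (σ τ : E →+* ℂ) (i : Fin 3) {p : ℕ} (hp : p.Prime) (hpS : p ∉ S)
    (hne : σ (liftTrace (normSq ω a p) i) ≠ τ (liftTrace (normSq ω a p) i)) :
    HasPrimeMean S (fun p => σ (liftTrace (normSq ω a p) i) * τ (liftTrace (normSq ω a p) i)) 0 := by
  have := h.rankin_selberg σ τ i i
  rwa [if_neg] at this
  rintro ⟨-, h2⟩
  exact hne (h2 p hp hpS)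

theorem mean_y1 (σ : E →+* ℂ) : HasPrimeMean S (fun p => σ (yy ω a p)) 0 := by
  refine (mean_ij h σ σ 1 0 (by decide)).congr (fun p _ _ => ?_) rfl
  simp [liftTrace, yy]

theorem mean_l2 (σ : E →+* ℂ) : HasPrimeMean S (fun p => σ (liftTrace (normSq ω a p) 2)) 0 := by
  refine (mean_ij h σ σ 2 0 (by decide)).congr (fun p _ _ => ?_) rfl
  simp [liftTrace]

theorem mean_y2 (σ : E →+* ℂ) : HasPrimeMean S (fun p => σ (yy ω a p) ^ 2) 1 := by
  refine ((mean_ii h σ 1)).congr (fun p _ _ => ?_) rfl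
  simp [liftTrace, yy, map_ofNat]; ring

theorem mean_y3 (σ : E →+* ℂ) : HasPrimeMean S (fun p => σ (yy ω a p) ^ 3) 1 := by
  have := ((mean_y1 h σ).add (mean_y2 h σ)).add (mean_ij h σ σ 1 2 (by decide))
  refine this.congr (fun p _ _ => ?_) (by norm_num)
  simp [liftTrace, yy, map_ofNat]; ring

theorem mean_y4 (σ : E →+* ℂ) : HasPrimeMean S (fun p => σ (yy ω a p) ^ 4) 3 := by
  have := (((mean_ii h σ 2).add ((mean_y3 h σ).const_mul 2)).add (mean_y2 h σ)).add
    (((mean_y1 h σ).const_mul (-2)).add ((mean_one h).const_mul (-1)))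
  refine this.congr (fun p _ _ => ?_) (by norm_num)
  simp [liftTrace, yy, map_ofNat]; ring

omit [NumberField E] h in
/-- The values `y_p` determine everything: `z_p = y_p + 1`. -/
theorem normSq_eq (p : ℕ) : normSq ω a p = yy ω a p + 1 := by
  simp [yy]

theorem mean_y1y1 (σ τ : E →+* ℂ) {p : ℕ} (hp : p.Prime) (hpS : p ∉ S) (hne : σ (yy ω a p) ≠ τ (yy ω a p)) :
    HasPrimeMean S (fun p => σ (yy ω a p) * τ (yy ω a p)) 0 := by
  refine (mean_ne h σ τ 1 hp hpS ?_).congr (fun p _ _ => ?_) rfl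
  · simpa [liftTrace, yy] using hne
  · simp [liftTrace, yy]

theorem mean_y2y1 (σ τ : E →+* ℂ) {p : ℕ} (hp : p.Prime) (hpS : p ∉ S) (hne : σ (yy ω a p) ≠ τ (yy ω a p)) :
    HasPrimeMean S (fun p => σ (yy ω a p) ^ 2 * τ (yy ω a p)) 0 := by
  have := ((mean_y1 h τ).add (mean_y1y1 h σ τ hp hpS hne)).add (mean_ij h σ τ 2 1 (by decide))
  refine this.congr (fun p _ _ => ?_) (by norm_num)
  simp [liftTrace, yy, map_ofNat]; ring

theorem mean_y2y2 (σ τ : E →+* ℂ) {p : ℕ} (hp : p.Prime) (hpS : p ∉ S)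
    (hne : σ (liftTrace (normSq ω a p) 2) ≠ τ (liftTrace (normSq ω a p) 2)) :
    HasPrimeMean S (fun p => σ (yy ω a p) ^ 2 * τ (yy ω a p) ^ 2) 1 := by
  have hne1 : σ (yy ω a p) ≠ τ (yy ω a p) := by
    intro he
    apply hne
    have e : liftTrace (normSq ω a p) 2 = yy ω a p ^ 2 - yy ω a p - 1 := by
      simp [liftTrace, yy, map_ofNat]; ring
    rw [e]
    simp only [map_sub, map_pow, map_one, he]
  have := ((((mean_one h).add (mean_y1 h σ)).add (mean_y1 h τ)).add ((mean_l2 h σ).add (mean_l2 h τ))).add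
    (((mean_y1y1 h σ τ hp hpS hne1).add (mean_ne h σ τ 2 hp hpS hne)).add
      ((mean_ij h σ τ 2 1 (by decide)).add (mean_ij h σ τ 1 2 (by decide))))
  refine this.congr (fun p _ _ => ?_) (by norm_num)
  simp [liftTrace, yy, map_ofNat]; ring

end moments

end Pool.Agent.Helper717Ico
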