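import Mathlib
import Pool.Agent.Helper717_Ico.Defs

/-!
# Field theory
-/

set_option autoImplicit false

namespace Pool.Agent.Helper717Ico

open Filter Topology Module IntermediateField

section field

variable {E : Type*} [Field E] [NumberField E]

theorem agree_adjoin {X : Set E} {σ τ : E →+* ℂ} (h : ∀ x ∈ X, τ x = σ x) :
    ∀ x ∈ adjoin ℚ X, τ x = σ x := by
  intro x hx
  induction hx using adjoin_induction with
  | mem x hx => exact h x hx
  | algebraMap x => simp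
  | add x y _ _ hx hy => rw [map_add, map_add, hx, hy]
  | inv x _ hx => rw [map_inv₀, map_inv₀, hx]
  | mul x y _ _ hx hy => rw [map_mul, map_mul, hx, hy]

/-- The number of the embeddings which agree with `σ` on `X` is the degree of `E` over `ℚ(X)`. -/
theorem card_agree (X : Set E) (σ : E →+* ℂ) :
    Nat.card {τ : E →+* ℂ // ∀ x ∈ X, τ x = σ x} = finrank (adjoin ℚ X) E := by
  let _ : Algebra (adjoin ℚ X) ℂ := (σ.comp (algebraMap (adjoin ℚ X) E)).toAlgebra
  rw [← AlgHom.card (adjoin ℚ X) E ℂ, ← Nat.card_eq_fintype_card]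
  refine Nat.card_congr ⟨fun τ => ⟨τ.1, fun x => agree_adjoin τ.2 x x.2⟩, fun τ => ⟨τ.toRingHom, fun x hx => ?_⟩,
    fun τ => rfl, fun τ => rfl⟩
  exact τ.commutes ⟨x, subset_adjoin ℚ X hx⟩

open scoped Classical in
theorem sum_agree (X : Set E) :
    (∑ σ : E →+* ℂ, ∑ τ : E →+* ℂ, if ∀ x ∈ X, σ x = τ x then (1 : ℂ) else 0) * (finrank ℚ (adjoin ℚ X) : ℂ) =
      (finrank ℚ E : ℂ) ^ 2 := by
  have h1 : ∀ σ : E →+* ℂ, (∑ τ : E →+* ℂ, if ∀ x ∈ X, σ x = τ x then (1 : ℂ) else 0) =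
      (finrank (adjoin ℚ X) E : ℂ) := by
    intro σ
    rw [Finset.sum_boole, ← card_agree X σ, Nat.card_eq_fintype_card, Fintype.card_subtype]
    congr 2
    ext τ
    simp only [Finset.mem_filter, Finset.mem_univ, true_and]
    exact ⟨fun h x hx => (h x hx).symm, fun h x hx => (h x hx).symm⟩
  rw [Finset.sum_congr rfl fun σ _ => h1 σ, Finset.sum_const, Finset.card_univ, NumberField.Embeddings.card, nsmul_eq_mul,
    mul_assoc, mul_comm (finrank (adjoin ℚ X) E : ℂ), ← Nat.cast_mul, finrank_mul_finrank, sq]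

theorem norm_prod (x : E) : ∏ σ : E →+* ℂ, σ x = ((Algebra.norm ℚ x : ℚ) : ℂ) := by
  have := Algebra.norm_eq_prod_embeddings ℚ ℂ x
  rw [show ((Algebra.norm ℚ x : ℚ) : ℂ) = algebraMap ℚ ℂ (Algebra.norm ℚ x) from rfl, this]
  exact Fintype.prod_equiv (RingHom.equivRatAlgHom E ℂ) _ _ fun _ => rfl

/-- If `x ≠ 0` is integral and all its conjugates are real and nonnegative, then their product is at least one. -/
theorem one_le_prod {x : E} (hx : IsIntegral ℤ x) (h0 : x ≠ 0) {r : (E →+* ℂ) → ℝ} (hr : ∀ σ, 0 ≤ r σ)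
    (he : ∀ σ : E →+* ℂ, σ x = (r σ : ℂ)) : 1 ≤ ∏ σ : E →+* ℂ, r σ := by
  have h1 : ((∏ σ : E →+* ℂ, r σ : ℝ) : ℂ) = ((Algebra.norm ℚ x : ℚ) : ℂ) := by
    rw [← norm_prod, Complex.ofReal_prod]
    exact Finset.prod_congr rfl fun σ _ => (he σ).symm
  obtain ⟨n, hn⟩ : ∃ n : ℤ, (n : ℚ) = Algebra.norm ℚ x :=
    (IsIntegrallyClosed.isIntegral_iff (R := ℤ) (K := ℚ)).1 (Algebra.isIntegral_norm ℚ hx)
  have h2 : ∏ σ : E →+* ℂ, r σ = (n : ℝ) := by
    rw [← hn] at h1
    exact_mod_cast h1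
  have h3 : (n : ℝ) ≠ 0 := by
    intro h
    have : Algebra.norm ℚ x = 0 := by
      rw [← hn]; exact_mod_cast h
    exact h0 (Algebra.norm_eq_zero_iff.1 this)
  have h4 : (0 : ℝ) ≤ n := by
    rw [← h2]; exact Finset.prod_nonneg fun σ _ => hr σ
  rw [h2]
  have h5 : 0 < n := by
    rcases lt_or_eq_of_le (show (0 : ℤ) ≤ n by exact_mod_cast h4) with h | h
    · exact h
    · exact absurd (by rw [← h]; simp) h3
  exact_mod_cast h5

end field

section system

variable {E : Type*} [Field E] [NumberField E] {S : Finset ℕ} {N : ℕ} {ω : DirichletCharacter E N} {a : ℕ → E}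
variable (h : IsArithmeticSystem S N ω a)

include h

theorem omega_isUnit {p : ℕ} (hp : p.Prime) (hpS : p ∉ S) : IsUnit (p : ZMod N) :=
  (ZMod.isUnit_iff_coprime p N).2 (h.coprime p hp hpS)

theorem omega_ne_zero {p : ℕ} (hp : p.Prime) (hpS : p ∉ S) : ω (p : ZMod N) ≠ 0 :=
  ((omega_isUnit h hp hpS).map ω).ne_zero

theorem modulus_pos {p : ℕ} (hp : p.Prime) (hpS : p ∉ S) : 0 < N := by
  rcases Nat.eq_zero_or_pos N with h0 | h0
  · have := h.coprime p hp hpS
    rw [h0, Nat.coprime_zero_right] at this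
    exact absurd this hp.one_lt.ne'
  · exact h0

theorem omega_pow {p : ℕ} (hp : p.Prime) (hpS : p ∉ S) : ω (p : ZMod N) ^ (Nat.totient N) = 1 := by
  obtain ⟨u, hu⟩ := omega_isUnit h hp hpS
  rw [← hu, ← map_pow, ← Units.val_pow_eq_pow_val, ZMod.pow_totient, Units.val_one, map_one]

theorem isIntegral_normSq {p : ℕ} (hp : p.Prime) (hpS : p ∉ S) : IsIntegral ℤ (normSq ω a p) := by
  have hN := modulus_pos h hp hpS
  have h1 : IsIntegral ℤ (ω (p : ZMod N))⁻¹ := by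
    refine IsIntegral.of_pow (Nat.totient_pos.2 hN) ?_
    rw [inv_pow, omega_pow h hp hpS, inv_one]
    exact isIntegral_one
  unfold normSq
  rw [div_eq_mul_inv]
  exact ((h.integral p hp hpS).pow 2).mul h1

theorem sigma_normSq (σ : E →+* ℂ) {p : ℕ} (hp : p.Prime) (hpS : p ∉ S) :
    σ (normSq ω a p) = ((‖σ (a p)‖ ^ 2 : ℝ) : ℂ) := by
  have h1 : σ (ω (p : ZMod N)) ≠ 0 := (map_ne_zero σ).2 (omega_ne_zero h hp hpS)
  have h2 := h.unitary σ p hp hpS
  unfold normSq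
  rw [map_div₀, map_pow, div_eq_iff h1, Complex.ofReal_pow, ← Complex.mul_conj', sq]
  nth_rewrite 2 [← h2]
  ring

theorem isIntegral_yy {p : ℕ} (hp : p.Prime) (hpS : p ∉ S) : IsIntegral ℤ (yy ω a p) :=
  (isIntegral_normSq h hp hpS).sub isIntegral_one

theorem sigma_yy (σ : E →+* ℂ) {p : ℕ} (hp : p.Prime) (hpS : p ∉ S) :
    σ (yy ω a p) = ((‖σ (a p)‖ ^ 2 - 1 : ℝ) : ℂ) := by
  unfold yy
  rw [map_sub, sigma_normSq h σ hp hpS, map_one]
  push_cast
  ring

end system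

end Pool.Agent.Helper717Ico
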