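import Mathlib

/-!
# The auxiliary inequalities
-/

set_option autoImplicit false

namespace Pool.Agent.Helper717Ico

/-- The auxiliary cubic polynomial. -/
noncomputable def cubic (z : ℝ) : ℝ := 20 / 69 * z ^ 3 - 73 / 46 * z ^ 2 + 155 / 46 * z - 20169 / 10000

/-- `log z ≤ F(z)` for the auxiliary cubic polynomial `F`, with near equality at `1/2` and `2`. -/
theorem log_le_cubic {z : ℝ} (hz : 0 < z) : Real.log z ≤ cubic z := by
  have hd : ∀ x : ℝ, 0 < x → HasDerivAt (fun z => cubic z - Real.log z)
      (20 / 23 * (x - 1 / 2) * (x - 23 / 20) * (x - 2) / x) x := by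
    intro x hx
    have h1 : HasDerivAt (fun z : ℝ => 20 / 69 * z ^ 3 - 73 / 46 * z ^ 2 + 155 / 46 * z - 20169 / 10000)
        (20 / 69 * (3 * x ^ 2) - 73 / 46 * (2 * x) + 155 / 46 * 1) x := by
      have h3 := (hasDerivAt_pow 3 x).const_mul (20 / 69 : ℝ)
      have h2 := (hasDerivAt_pow 2 x).const_mul (73 / 46 : ℝ)
      have h1 := (hasDerivAt_id x).const_mul (155 / 46 : ℝ)
      have := ((h3.sub h2).add h1).sub_const (20169 / 10000 : ℝ)
      refine (this.congr_deriv ?_).congr_of_eventuallyEq (Filter.Eventually.of_forall fun y => ?_)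
      · norm_num
      · simp
    have h2 := h1.sub (Real.hasDerivAt_log hx.ne')
    refine (h2.congr_deriv ?_).congr_of_eventuallyEq (Filter.Eventually.of_forall fun y => ?_)
    · field_simp
      ring
    · simp [cubic]
  have hcont : ContinuousOn (fun z => cubic z - Real.log z) (Set.Ioi 0) :=
    fun x hx => (hd x hx).continuousAt.continuousWithinAt
  have l2a := Real.log_two_gt_d9
  have l2b := Real.log_two_lt_d9
  have v1 : 0 ≤ cubic (1 / 2) - Real.log (1 / 2) := by
    rw [show (1 / 2 : ℝ) = 2⁻¹ by norm_num, Real.log_inv]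
    norm_num [cubic]
    linarith
  have v2 : 0 ≤ cubic 2 - Real.log 2 := by
    norm_num [cubic]
    linarith
  suffices h : 0 ≤ cubic z - Real.log z by linarith
  rcases le_total z (23 / 20) with h1 | h1
  · rcases le_total z (1 / 2) with h2 | h2
    · have anti : AntitoneOn (fun z => cubic z - Real.log z) (Set.Icc z (1 / 2)) := by
        apply antitoneOn_of_deriv_nonpos (convex_Icc _ _)
        · exact hcont.mono fun x hx => lt_of_lt_of_le hz hx.1
        · intro x hx
          rw [interior_Icc] at hx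
          exact (hd x (hz.trans hx.1)).differentiableAt.differentiableWithinAt
        · intro x hx
          rw [interior_Icc] at hx
          have hx0 := hz.trans hx.1
          rw [(hd x hx0).deriv]
          apply div_nonpos_of_nonpos_of_nonneg _ hx0.le
          have a1 : x - 1 / 2 ≤ 0 := by linarith [hx.2]
          have a2 : x - 23 / 20 ≤ 0 := by linarith [hx.2]
          have a3 : x - 2 ≤ 0 := by linarith [hx.2]
          nlinarith [mul_nonneg_of_nonpos_of_nonpos a1 a2]
      exact v1.trans (anti ⟨le_rfl, h2⟩ ⟨h2, le_rfl⟩ h2)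
    · have mono : MonotoneOn (fun z => cubic z - Real.log z) (Set.Icc (1 / 2) z) := by
        apply monotoneOn_of_deriv_nonneg (convex_Icc _ _)
        · exact hcont.mono fun x hx => lt_of_lt_of_le (by norm_num) hx.1
        · intro x hx
          rw [interior_Icc] at hx
          exact (hd x (lt_trans (by norm_num) hx.1)).differentiableAt.differentiableWithinAt
        · intro x hx
          rw [interior_Icc] at hx
          have hx0 : 0 < x := lt_trans (by norm_num) hx.1
          rw [(hd x hx0).deriv]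
          apply div_nonneg _ hx0.le
          have a1 : 0 ≤ x - 1 / 2 := by linarith [hx.1]
          have a2 : x - 23 / 20 ≤ 0 := by linarith [hx.2]
          have a3 : x - 2 ≤ 0 := by linarith [hx.2]
          nlinarith [mul_nonneg a1 (mul_nonneg_of_nonpos_of_nonpos a2 a3)]
      exact v1.trans (mono ⟨le_rfl, h2⟩ ⟨h2, le_rfl⟩ h2)
  · rcases le_total z 2 with h2 | h2
    · have anti : AntitoneOn (fun z => cubic z - Real.log z) (Set.Icc z 2) := by
        apply antitoneOn_of_deriv_nonpos (convex_Icc _ _)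
        · exact hcont.mono fun x hx => lt_of_lt_of_le hz hx.1
        · intro x hx
          rw [interior_Icc] at hx
          exact (hd x (hz.trans hx.1)).differentiableAt.differentiableWithinAt
        · intro x hx
          rw [interior_Icc] at hx
          have hx0 := hz.trans hx.1
          rw [(hd x hx0).deriv]
          apply div_nonpos_of_nonpos_of_nonneg _ hx0.le
          have a1 : 0 ≤ x - 1 / 2 := by linarith [hx.1]
          have a2 : 0 ≤ x - 23 / 20 := by linarith [hx.1]
          have a3 : x - 2 ≤ 0 := by linarith [hx.2]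
          nlinarith [mul_nonneg a1 a2, mul_nonneg (mul_nonneg a1 a2) (neg_nonneg.2 a3)]
      exact v2.trans (anti ⟨le_rfl, h2⟩ ⟨h2, le_rfl⟩ h2)
    · have mono : MonotoneOn (fun z => cubic z - Real.log z) (Set.Icc 2 z) := by
        apply monotoneOn_of_deriv_nonneg (convex_Icc _ _)
        · exact hcont.mono fun x hx => lt_of_lt_of_le (by norm_num) hx.1
        · intro x hx
          rw [interior_Icc] at hx
          exact (hd x (lt_trans (by norm_num) hx.1)).differentiableAt.differentiableWithinAt
        · intro x hx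
          rw [interior_Icc] at hx
          have hx0 : 0 < x := lt_trans (by norm_num) hx.1
          rw [(hd x hx0).deriv]
          apply div_nonneg _ hx0.le
          have a1 : 0 ≤ x - 1 / 2 := by linarith [hx.1]
          have a2 : 0 ≤ x - 23 / 20 := by linarith [hx.1]
          have a3 : 0 ≤ x - 2 := by linarith [hx.1]
          positivity
      exact v2.trans (mono ⟨le_rfl, h2⟩ ⟨h2, le_rfl⟩ h2)

/-- The quartic certificate in the symmetric functions `s = y + y'`, `q = y y'`. -/
def cert (s q : ℤ) : ℤ :=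
  -54 * s - 56 * q + 7 * (s ^ 2 - 2 * q) + 24 * (q * s) - 9 * q ^ 2 + 4 * (s ^ 3 - 3 * s * q) -
    (s ^ 4 - 4 * s ^ 2 * q + 2 * q ^ 2)

theorem cert_small : ∀ s ∈ Finset.Icc (-2 : ℤ) 7, ∀ q ∈ Finset.Icc (-8 : ℤ) 12, 0 ≤ 1 + s + q → 4 * q ≤ s ^ 2 →
    cert s q ≤ 0 ∨ ∃ r ∈ Finset.Icc (1 : ℤ) 12, s ^ 2 - 4 * q = r ^ 2 := by
  decide

/-- The certificate is nonpositive at all lattice points: `s, q` are the trace and the norm of an integer of a real
quadratic field (or twice and the square of an integer) all of whose conjugates are at least `-1`. -/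
theorem cert_nonpos {s q : ℤ} (hs : -2 ≤ s) (h1 : 0 ≤ 1 + s + q) (h2 : 4 * q ≤ s ^ 2)
    (h3 : ∀ r : ℤ, 0 < r → s ^ 2 - 4 * q ≠ r ^ 2) : cert s q ≤ 0 := by
  rcases le_or_gt s 7 with h | h
  · have hq1 : -8 ≤ q := by linarith
    have hq2 : q ≤ 12 := by
      have : s ^ 2 ≤ 49 := by nlinarith
      linarith
    rcases cert_small s (Finset.mem_Icc.2 ⟨hs, h⟩) q (Finset.mem_Icc.2 ⟨hq1, hq2⟩) h1 h2 with h4 | ⟨r, hr, h4⟩
    · exact h4
    · exact absurd h4 (h3 r (by have := (Finset.mem_Icc.1 hr).1; omega))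
  · have hs8 : 8 ≤ s := h
    have e : 44 * cert s q = -(22 * q - (4 * s ^ 2 + 12 * s - 70)) ^ 2 +
        (-28 * s ^ 4 + 272 * s ^ 3 - 108 * s ^ 2 - 4056 * s + 4900) := by
      unfold cert; ring
    have e2 : -28 * s ^ 4 + 272 * s ^ 3 - 108 * s ^ 2 - 4056 * s + 4900 ≤ 0 := by
      obtain ⟨t, rfl⟩ : ∃ t, s = 8 + t := ⟨s - 8, by ring⟩
      have ht : 0 ≤ t := by linarith
      nlinarith [mul_nonneg ht ht, mul_nonneg (mul_nonneg ht ht) ht, mul_nonneg (mul_nonneg ht ht) (mul_nonneg ht ht)]
    nlinarith [sq_nonneg (22 * q - (4 * s ^ 2 + 12 * s - 70))]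

theorem icoPoly_nonneg {m : ℤ} (hm : -1 ≤ m) : 0 ≤ (m + 1) * m * ((m - 2) * (m - 3)) := by
  have h1 : 0 ≤ (m - 2) * (m - 3) := by
    rcases le_or_gt m 2 with h | h
    · nlinarith
    · exact mul_nonneg (by linarith) (by linarith [Int.add_one_le_iff.2 h])
  have h2 : 0 ≤ (m + 1) * m := by
    rcases le_or_gt m (-1) with h | h
    · have : m = -1 := by omega
      subst this; norm_num
    · exact mul_nonneg (by linarith) (by omega)
  exact mul_nonneg h2 h1

theorem s4Poly_nonneg {m : ℤ} (hm : -1 ≤ m) : 0 ≤ (m + 1) * m * ((2 * m - 3) * (m - 2)) := by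
  have h1 : 0 ≤ (2 * m - 3) * (m - 2) := by
    rcases le_or_gt m 1 with h | h
    · nlinarith
    · exact mul_nonneg (by linarith [Int.add_one_le_iff.2 h]) (by linarith [Int.add_one_le_iff.2 h])
  have h2 : 0 ≤ (m + 1) * m := by
    rcases le_or_gt m (-1) with h | h
    · have : m = -1 := by omega
      subst this; norm_num
    · exact mul_nonneg (by linarith) (by omega)
  exact mul_nonneg h2 h1

end Pool.Agent.Helper717Ico
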