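import Mathlib
import Pool.Agent.Helper717_Ico.Field
import Pool.Agent.Helper717_Ico.Ineq

/-!
# The degrees of the coefficient fields of `Ad π` and `Sym⁴ π`
-/

set_option autoImplicit false

namespace Pool.Agent.Helper717Ico

open Filter Topology Module IntermediateField

variable {E : Type*} [Field E] [NumberField E] {S : Finset ℕ} {N : ℕ} {ω : DirichletCharacter E N} {a : ℕ → E}

/-- The Hecke traces of the lift number `i`. -/
def traceSet (S : Finset ℕ) (ω : DirichletCharacter E N) (a : ℕ → E) (i : Fin 3) : Set E :=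
  {x | ∃ p : ℕ, p.Prime ∧ p ∉ S ∧ x = liftTrace (normSq ω a p) i}

open scoped Classical in
theorem mean_diag (h : IsArithmeticSystem S N ω a) (σ τ : E →+* ℂ) (i : Fin 3) :
    HasPrimeMean S (fun p => σ (liftTrace (normSq ω a p) i) * τ (liftTrace (normSq ω a p) i))
      (if ∀ x ∈ traceSet S ω a i, σ x = τ x then 1 else 0) := by
  have := h.rankin_selberg σ τ i i
  refine this.congr (fun _ _ _ => rfl) ?_
  congr 1
  simp only [true_and, eq_iff_iff]
  constructor
  · rintro h1 x ⟨p, hp, hpS, rfl⟩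
    exact h1 p hp hpS
  · exact fun h1 p hp hpS => h1 _ ⟨p, hp, hpS, rfl⟩

/-- The mean of the square of the average over the embeddings of `-u Ad + v Sym⁴`. -/
theorem mean_sq (h : IsArithmeticSystem S N ω a) (u v : ℂ) :
    HasPrimeMean S (fun p => ((∑ σ : E →+* ℂ, (-u * σ (liftTrace (normSq ω a p) 1) +
        v * σ (liftTrace (normSq ω a p) 2))) / (finrank ℚ E : ℂ)) ^ 2)
      (u ^ 2 / (finrank ℚ (adjoin ℚ (traceSet S ω a 1)) : ℂ) +
        v ^ 2 / (finrank ℚ (adjoin ℚ (traceSet S ω a 2)) : ℂ)) := by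
  classical
  have hn : (finrank ℚ E : ℂ) ≠ 0 := by
    exact_mod_cast (finrank_pos (R := ℚ) (M := E)).ne'
  have hd : (finrank ℚ (adjoin ℚ (traceSet S ω a 1)) : ℂ) ≠ 0 := by
    exact_mod_cast (finrank_pos (R := ℚ) (M := adjoin ℚ (traceSet S ω a 1))).ne'
  have hk : (finrank ℚ (adjoin ℚ (traceSet S ω a 2)) : ℂ) ≠ 0 := by
    exact_mod_cast (finrank_pos (R := ℚ) (M := adjoin ℚ (traceSet S ω a 2))).ne'
  have e1 := sum_agree (traceSet S ω a 1)
  have e2 := sum_agree (traceSet S ω a 2)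
  have key : ∀ σ τ : E →+* ℂ, HasPrimeMean S (fun p => (-u * σ (liftTrace (normSq ω a p) 1) +
      v * σ (liftTrace (normSq ω a p) 2)) * (-u * τ (liftTrace (normSq ω a p) 1) +
      v * τ (liftTrace (normSq ω a p) 2)))
      (u ^ 2 * (if ∀ x ∈ traceSet S ω a 1, σ x = τ x then 1 else 0) +
        v ^ 2 * (if ∀ x ∈ traceSet S ω a 2, σ x = τ x then 1 else 0)) := by
    intro σ τ
    have := (((mean_diag h σ τ 1).const_mul (u ^ 2)).add ((mean_diag h σ τ 2).const_mul (v ^ 2))).add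
      (((mean_ij h σ τ 1 2 (by decide)).const_mul (-u * v)).add ((mean_ij h σ τ 2 1 (by decide)).const_mul (-u * v)))
    refine this.congr (fun p _ _ => by ring) (by ring)
  have := (HasPrimeMean.sum Finset.univ fun σ _ => HasPrimeMean.sum Finset.univ fun τ _ => key σ τ).const_mul
    (1 / (finrank ℚ E : ℂ) ^ 2)
  refine this.congr (fun p _ _ => ?_) ?_
  · rw [div_pow, sq (∑ σ : E →+* ℂ, _), Finset.sum_mul_sum]
    ring
  · simp only [Finset.sum_add_distrib, ← Finset.mul_sum]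
    rw [← eq_div_iff hd] at e1
    rw [← eq_div_iff hk] at e2
    rw [e1, e2]
    field_simp

/-- The mean of the cubic polynomial. -/
theorem mean_cubic (h : IsArithmeticSystem S N ω a) (σ : E →+* ℂ) :
    HasPrimeMean S (fun p => 20 / 69 * (σ (yy ω a p) + 1) ^ 3 - 73 / 46 * (σ (yy ω a p) + 1) ^ 2 +
      155 / 46 * (σ (yy ω a p) + 1) - 20169 / 10000) (100 / 69 + 9 / 46 - 20169 / 10000) := by
  have := ((((mean_y3 h σ).const_mul (20 / 69)).add ((mean_y2 h σ).const_mul (60 / 69 - 73 / 46))).add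
    ((mean_y1 h σ).const_mul (60 / 69 - 146 / 46 + 155 / 46))).add
    ((mean_one h).const_mul (20 / 69 - 73 / 46 + 155 / 46 - 20169 / 10000))
  refine this.congr (fun p _ _ => by ring) (by norm_num)

/-- **The degrees are small.** If `d` and `k` are the degrees of the coefficient fields of `Ad π` and of
`Sym⁴ π ⊗ ω⁻²`, then `d + k < 6`. -/
theorem degree_lt (h : IsArithmeticSystem S N ω a) :
    finrank ℚ (adjoin ℚ (traceSet S ω a 1)) + finrank ℚ (adjoin ℚ (traceSet S ω a 2)) < 6 := by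
  by_contra hcon
  rw [not_lt] at hcon
  set d := finrank ℚ (adjoin ℚ (traceSet S ω a 1)) with hddef
  set k := finrank ℚ (adjoin ℚ (traceSet S ω a 2)) with hkdef
  have hd : (0 : ℝ) < d := by exact_mod_cast finrank_pos (R := ℚ) (M := adjoin ℚ (traceSet S ω a 1))
  have hk : (0 : ℝ) < k := by exact_mod_cast finrank_pos (R := ℚ) (M := adjoin ℚ (traceSet S ω a 2))
  have hn : (0 : ℝ) < (finrank ℚ E : ℝ) := by exact_mod_cast finrank_pos (R := ℚ) (M := E)
  have hdk : (6 : ℝ) ≤ d + k := by exact_mod_cast hcon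
  set u : ℝ := d / (d + k) with hu
  set v : ℝ := k / (d + k) with hv
  have huv : u + v = 1 := by rw [hu, hv]; field_simp
  have m1 := mean_sq h (u : ℂ) (v : ℂ)
  have m2 := (HasPrimeMean.sum (Finset.univ : Finset (E →+* ℂ)) fun σ _ => mean_cubic h σ).const_mul
    (1 / (finrank ℚ E : ℂ))
  have m3 := m2.add (m1.const_mul (20169 / 10000))
  have h1 := m3.re_nonneg ?_
  · have e1 : (1 / (finrank ℚ E : ℂ) * ∑ _σ : E →+* ℂ, (100 / 69 + 9 / 46 - 20169 / 10000) +
        20169 / 10000 * ((u : ℂ) ^ 2 / (d : ℂ) + (v : ℂ) ^ 2 / (k : ℂ))) =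
        (((100 / 69 + 9 / 46 - 20169 / 10000) + 20169 / 10000 * (1 / (d + k)) : ℝ) : ℂ) := by
      rw [Finset.sum_const, Finset.card_univ, NumberField.Embeddings.card, nsmul_eq_mul]
      have hnC : (finrank ℚ E : ℂ) ≠ 0 := by exact_mod_cast hn.ne'
      have e2 : u ^ 2 / d + v ^ 2 / k = 1 / (d + k) := by
        rw [hu, hv]
        field_simp
      have e3 : ((u : ℂ) ^ 2 / (d : ℂ) + (v : ℂ) ^ 2 / (k : ℂ)) = ((u ^ 2 / d + v ^ 2 / k : ℝ) : ℂ) := by
        push_cast; ring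
      rw [e3, e2]
      push_cast
      field_simp
    rw [e1, Complex.ofReal_re] at h1
    have e4 : 1 / ((d : ℝ) + k) ≤ 1 / 6 := by
      apply one_div_le_one_div_of_le (by norm_num) hdk
    nlinarith
  · intro p hp hpS
    have hreal : ∀ σ : E →+* ℂ, σ (yy ω a p) = ((‖σ (a p)‖ ^ 2 - 1 : ℝ) : ℂ) := fun σ => sigma_yy h σ hp hpS
    have hb : ((∑ σ : E →+* ℂ, (-(u : ℂ) * σ (liftTrace (normSq ω a p) 1) +
        (v : ℂ) * σ (liftTrace (normSq ω a p) 2))) / (finrank ℚ E : ℂ)) =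
        (((∑ σ : E →+* ℂ, (-u * (‖σ (a p)‖ ^ 2 - 1) + v * ((‖σ (a p)‖ ^ 2) ^ 2 - 3 * ‖σ (a p)‖ ^ 2 + 1))) /
          finrank ℚ E : ℝ) : ℂ) := by
      push_cast
      congr 1
      refine Finset.sum_congr rfl fun σ _ => ?_
      have := sigma_normSq h σ hp hpS
      simp [liftTrace, this, map_ofNat]
    have hc : ∀ σ : E →+* ℂ, 20 / 69 * (σ (yy ω a p) + 1) ^ 3 - 73 / 46 * (σ (yy ω a p) + 1) ^ 2 +
      155 / 46 * (σ (yy ω a p) + 1) - 20169 / 10000 = ((cubic (‖σ (a p)‖ ^ 2) : ℝ) : ℂ) := by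
      intro σ
      rw [hreal σ, cubic]
      push_cast
      ring
    rw [hb, Finset.sum_congr rfl fun σ _ => hc σ]
    have e5 : (1 / (finrank ℚ E : ℂ) * ∑ σ : E →+* ℂ, ((cubic (‖σ (a p)‖ ^ 2) : ℝ) : ℂ) + 20169 / 10000 *
        (((∑ σ : E →+* ℂ, (-u * (‖σ (a p)‖ ^ 2 - 1) + v * ((‖σ (a p)‖ ^ 2) ^ 2 - 3 * ‖σ (a p)‖ ^ 2 + 1))) /
          finrank ℚ E : ℝ) : ℂ) ^ 2) =
        ((1 / (finrank ℚ E : ℝ) * ∑ σ : E →+* ℂ, cubic (‖σ (a p)‖ ^ 2) + 20169 / 10000 *
        ((∑ σ : E →+* ℂ, (-u * (‖σ (a p)‖ ^ 2 - 1) + v * ((‖σ (a p)‖ ^ 2) ^ 2 - 3 * ‖σ (a p)‖ ^ 2 + 1))) /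
          finrank ℚ E) ^ 2 : ℝ) : ℂ) := by
      push_cast; ring
    rw [e5, Complex.ofReal_re]
    by_cases hz : normSq ω a p = 0
    · have hz0 : ∀ σ : E →+* ℂ, ‖σ (a p)‖ ^ 2 = 0 := by
        intro σ
        have := sigma_normSq h σ hp hpS
        rw [hz, map_zero] at this
        exact_mod_cast this.symm
      simp only [hz0]
      rw [Finset.sum_const, Finset.sum_const, Finset.card_univ, NumberField.Embeddings.card, nsmul_eq_mul, nsmul_eq_mul]
      have e6 : (finrank ℚ E : ℝ) * (-u * (0 - 1) + v * (0 ^ 2 - 3 * 0 + 1)) / finrank ℚ E = 1 := by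
        rw [mul_div_assoc, mul_div_cancel₀]
        · linarith
        · exact hn.ne'
      rw [e6, ← mul_assoc, one_div, inv_mul_cancel₀ hn.ne']
      norm_num [cubic]
    · have hint := isIntegral_normSq h hp hpS
      have hp1 := one_le_prod hint hz (r := fun σ => ‖σ (a p)‖ ^ 2) (fun σ => sq_nonneg _)
        (fun σ => sigma_normSq h σ hp hpS)
      have hpos : ∀ σ : E →+* ℂ, 0 < ‖σ (a p)‖ ^ 2 := by
        intro σ
        rcases lt_or_eq_of_le (sq_nonneg ‖σ (a p)‖) with h2 | h2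
        · exact h2
        · exfalso
          have := sigma_normSq h σ hp hpS
          rw [← h2, Complex.ofReal_zero, map_eq_zero] at this
          exact hz this
      have hlog : 0 ≤ ∑ σ : E →+* ℂ, cubic (‖σ (a p)‖ ^ 2) := by
        refine le_trans ?_ (Finset.sum_le_sum fun σ _ => log_le_cubic (hpos σ))
        rw [← Real.log_prod fun σ _ => (hpos σ).ne']
        exact Real.log_nonneg hp1
      positivity

end Pool.Agent.Helper717Ico
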