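import Mathlib
import Pool.Agent.Helper717_Ico.Generic

/-!
# The case of a quadratic coefficient field of `Sym⁴ π`
-/

set_option autoImplicit false

namespace Pool.Agent.Helper717Ico

open Filter Topology Module IntermediateField

section quad

/-- The trace and the norm from a quadratic field in terms of two different embeddings. -/
theorem trace_norm_quadratic {K : Type*} [Field K] [NumberField K] (h2 : finrank ℚ K = 2) {σ τ : K →+* ℂ}
    (hne : σ ≠ τ) (x : K) :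
    σ x + τ x = ((Algebra.trace ℚ K x : ℚ) : ℂ) ∧ σ x * τ x = ((Algebra.norm ℚ x : ℚ) : ℂ) := by
  classical
  have hu : (Finset.univ : Finset (K →+* ℂ)) = {σ, τ} := by
    symm
    apply Finset.eq_univ_of_card
    rw [Finset.card_pair hne, NumberField.Embeddings.card, h2]
  have h1 : ∑ σ : K →+* ℂ, σ x = ((Algebra.trace ℚ K x : ℚ) : ℂ) := by
    rw [show ((Algebra.trace ℚ K x : ℚ) : ℂ) = algebraMap ℚ ℂ (Algebra.trace ℚ K x) from rfl,
      trace_eq_sum_embeddings ℂ (K := ℚ) (L := K)]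
    exact Fintype.sum_equiv (RingHom.equivRatAlgHom K ℂ) _ _ fun _ => rfl
  refine ⟨?_, ?_⟩
  · rw [← h1, hu, Finset.sum_pair hne]
  · rw [← norm_prod, hu, Finset.prod_pair hne]

theorem exists_int_trace_norm {K : Type*} [Field K] [NumberField K] (h2 : finrank ℚ K = 2) {σ τ : K →+* ℂ}
    (hne : σ ≠ τ) {x : K} (hx : IsIntegral ℤ x) :
    ∃ s q : ℤ, σ x + τ x = (s : ℂ) ∧ σ x * τ x = (q : ℂ) ∧ ∀ r : ℤ, 0 < r → s ^ 2 - 4 * q ≠ r ^ 2 := by
  obtain ⟨h3, h4⟩ := trace_norm_quadratic h2 hne x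
  obtain ⟨s, hs⟩ : ∃ n : ℤ, (n : ℚ) = Algebra.trace ℚ K x :=
    (IsIntegrallyClosed.isIntegral_iff (R := ℤ) (K := ℚ)).1 (Algebra.isIntegral_trace hx)
  obtain ⟨q, hq⟩ : ∃ n : ℤ, (n : ℚ) = Algebra.norm ℚ x :=
    (IsIntegrallyClosed.isIntegral_iff (R := ℤ) (K := ℚ)).1 (Algebra.isIntegral_norm ℚ hx)
  have h5 : σ x + τ x = (s : ℂ) := by rw [h3, ← hs]; simp
  have h6 : σ x * τ x = (q : ℂ) := by rw [h4, ← hq]; simp
  refine ⟨s, q, h5, h6, fun r hr he => ?_⟩
  have h7 : (σ x - τ x) ^ 2 = (r : ℂ) ^ 2 := by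
    have : (σ x - τ x) ^ 2 = (σ x + τ x) ^ 2 - 4 * (σ x * τ x) := by ring
    rw [this, h5, h6]
    exact_mod_cast he
  have h8 : σ (2 * x - s) ^ 2 = σ ((r : K) ^ 2) := by
    rw [map_sub, map_mul, map_intCast, map_pow, map_intCast, ← h7, ← h5]
    simp only [map_ofNat]
    ring
  have h9 : (2 * x - s) ^ 2 = (r : K) ^ 2 := by
    apply σ.injective
    rw [← h8, map_pow]
  have h10 : σ x = τ x := by
    rcases sq_eq_sq_iff_eq_or_eq_neg.1 h9 with h | h
    · have : x = ((((s + r : ℤ) : ℚ) / 2 : ℚ) : K) := by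
        push_cast
        field_simp
        linear_combination h
      rw [this, map_ratCast, map_ratCast]
    · have : x = ((((s - r : ℤ) : ℚ) / 2 : ℚ) : K) := by
        push_cast
        field_simp
        linear_combination h
      rw [this, map_ratCast, map_ratCast]
  rw [h10, sub_self] at h7
  have : (r : ℂ) ≠ 0 := by exact_mod_cast hr.ne'
  exact this (by simpa using h7.symm)

end quad

variable {E : Type*} [Field E] [NumberField E] {S : Finset ℕ} {N : ℕ} {ω : DirichletCharacter E N} {a : ℕ → E}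

omit [NumberField E] in
theorem lift_two_eq (p : ℕ) : liftTrace (normSq ω a p) 2 = yy ω a p ^ 2 - yy ω a p - 1 := by
  simp [liftTrace, yy]; ring

omit [NumberField E] in
theorem lift_one_eq (p : ℕ) : liftTrace (normSq ω a p) 1 = yy ω a p := by
  simp [liftTrace, yy]

theorem yy_mem {p : ℕ} (hp : p.Prime) (hpS : p ∉ S) : yy ω a p ∈ adjoin ℚ (traceSet S ω a 1) :=
  subset_adjoin ℚ _ ⟨p, hp, hpS, (lift_one_eq p).symm⟩

theorem adjoin_le : adjoin ℚ (traceSet S ω a 2) ≤ adjoin ℚ (traceSet S ω a 1) := by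
  rw [adjoin_le_iff]
  rintro x ⟨p, hp, hpS, rfl⟩
  have := yy_mem (ω := ω) (a := a) hp hpS
  rw [SetLike.mem_coe, lift_two_eq]
  exact sub_mem (sub_mem (pow_mem this 2) this) (one_mem _)

/-- The generic quadratic case is impossible. -/
theorem not_quadratic (h : IsArithmeticSystem S N ω a) (hd : finrank ℚ (adjoin ℚ (traceSet S ω a 1)) = 2)
    (hk : finrank ℚ (adjoin ℚ (traceSet S ω a 2)) ≠ 1) : False := by
  classical
  -- two embeddings which differ on the traces of `Sym⁴`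
  obtain ⟨σ⟩ : Nonempty (E →+* ℂ) := inferInstance
  have hcard : finrank ℚ (adjoin ℚ (traceSet S ω a 2)) * finrank (adjoin ℚ (traceSet S ω a 2)) E =
    finrank ℚ E := finrank_mul_finrank _ _ _
  obtain ⟨τ, hτ⟩ : ∃ τ : E →+* ℂ, ¬ ∀ x ∈ traceSet S ω a 2, τ x = σ x := by
    by_contra hcon
    push Not at hcon
    have h1 := card_agree (traceSet S ω a 2) σ
    have h2 : Nat.card {τ : E →+* ℂ // ∀ x ∈ traceSet S ω a 2, τ x = σ x} = Nat.card (E →+* ℂ) :=
      Nat.card_congr (Equiv.subtypeUnivEquiv hcon)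
    rw [h2, Nat.card_eq_fintype_card, NumberField.Embeddings.card] at h1
    rw [h1] at hcard
    have hpos : 0 < finrank (adjoin ℚ (traceSet S ω a 2)) E := finrank_pos
    exact hk (Nat.eq_of_mul_eq_mul_right hpos (by rw [hcard, one_mul]))
  push Not at hτ
  obtain ⟨x, ⟨p₀, hp₀, hpS₀, rfl⟩, hx⟩ := hτ
  have hne2 : σ (liftTrace (normSq ω a p₀) 2) ≠ τ (liftTrace (normSq ω a p₀) 2) := fun he => hx he.symm
  have hne1 : σ (yy ω a p₀) ≠ τ (yy ω a p₀) := by
    intro he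
    apply hne2
    rw [lift_two_eq]
    simp only [map_sub, map_pow, map_one, he]
  -- the lattice points
  have hlat : ∀ p : ℕ, p.Prime → p ∉ S → ∃ s q : ℤ, σ (yy ω a p) + τ (yy ω a p) = (s : ℂ) ∧
      σ (yy ω a p) * τ (yy ω a p) = (q : ℂ) ∧ cert s q ≤ 0 := by
    intro p hp hpS
    have hmem := yy_mem (ω := ω) (a := a) hp hpS
    have hne : σ.comp (algebraMap (adjoin ℚ (traceSet S ω a 1)) E) ≠
        τ.comp (algebraMap (adjoin ℚ (traceSet S ω a 1)) E) := by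
      intro he
      have := RingHom.congr_fun he ⟨yy ω a p₀, yy_mem hp₀ hpS₀⟩
      exact hne1 this
    have hint : IsIntegral ℤ (⟨yy ω a p, hmem⟩ : adjoin ℚ (traceSet S ω a 1)) := by
      have := isIntegral_yy h hp hpS
      exact (isIntegral_algHom_iff ((adjoin ℚ (traceSet S ω a 1)).val.restrictScalars ℤ)
        Subtype.coe_injective).1 this
    obtain ⟨s, q, h1, h2, h3⟩ := exists_int_trace_norm hd hne hint
    refine ⟨s, q, h1, h2, ?_⟩
    have e1 : σ (yy ω a p) = ((‖σ (a p)‖ ^ 2 - 1 : ℝ) : ℂ) := sigma_yy h σ hp hpS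
    have e2 : τ (yy ω a p) = ((‖τ (a p)‖ ^ 2 - 1 : ℝ) : ℂ) := sigma_yy h τ hp hpS
    have h1' : ((‖σ (a p)‖ ^ 2 - 1) + (‖τ (a p)‖ ^ 2 - 1) : ℝ) = (s : ℝ) := by
      have : σ (yy ω a p) + τ (yy ω a p) = (s : ℂ) := h1
      rw [e1, e2] at this
      exact_mod_cast this
    have h2' : ((‖σ (a p)‖ ^ 2 - 1) * (‖τ (a p)‖ ^ 2 - 1) : ℝ) = (q : ℝ) := by
      have : σ (yy ω a p) * τ (yy ω a p) = (q : ℂ) := h2
      rw [e1, e2] at this
      exact_mod_cast this
    have hA := sq_nonneg ‖σ (a p)‖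
    have hB := sq_nonneg ‖τ (a p)‖
    apply cert_nonpos
    · have : (-2 : ℝ) ≤ (s : ℝ) := by rw [← h1']; linarith
      exact_mod_cast this
    · have : (0 : ℝ) ≤ 1 + (s : ℝ) + (q : ℝ) := by
        rw [← h1', ← h2']
        nlinarith [mul_nonneg hA hB]
      exact_mod_cast this
    · have : 4 * (q : ℝ) ≤ (s : ℝ) ^ 2 := by
        rw [← h1', ← h2']
        nlinarith [sq_nonneg ((‖σ (a p)‖ ^ 2 - 1) - (‖τ (a p)‖ ^ 2 - 1))]
      exact_mod_cast this
    · exact h3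
  -- the mean of the certificate
  have hne2' : τ (liftTrace (normSq ω a p₀) 2) ≠ σ (liftTrace (normSq ω a p₀) 2) := hne2.symm
  have m := (((((mean_y2 h σ).add (mean_y2 h τ)).const_mul (-7)).add
    ((mean_y1y1 h σ τ hp₀ hpS₀ hne1).const_mul 56)).add
    ((((mean_y2y1 h σ τ hp₀ hpS₀ hne1).add (mean_y2y1 h τ σ hp₀ hpS₀ hne1.symm)).const_mul (-24)).add
    ((mean_y2y2 h σ τ hp₀ hpS₀ hne2).const_mul 9))).add
    (((((mean_y3 h σ).add (mean_y3 h τ)).const_mul (-4)).add ((mean_y4 h σ).add (mean_y4 h τ))).add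
    (((mean_y1 h σ).add (mean_y1 h τ)).const_mul 54))
  have h1 := m.re_nonneg ?_
  · norm_num at h1
  · intro p hp hpS
    obtain ⟨s, q, h1, h2, h3⟩ := hlat p hp hpS
    have e : -7 * (σ (yy ω a p) ^ 2 + τ (yy ω a p) ^ 2) + 56 * (σ (yy ω a p) * τ (yy ω a p)) +
        (-24 * (σ (yy ω a p) ^ 2 * τ (yy ω a p) + τ (yy ω a p) ^ 2 * σ (yy ω a p)) +
        9 * (σ (yy ω a p) ^ 2 * τ (yy ω a p) ^ 2)) +
        (-4 * (σ (yy ω a p) ^ 3 + τ (yy ω a p) ^ 3) + (σ (yy ω a p) ^ 4 + τ (yy ω a p) ^ 4) +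
        54 * (σ (yy ω a p) + τ (yy ω a p))) = ((-(cert s q) : ℤ) : ℂ) := by
      unfold cert
      push_cast
      rw [← h1, ← h2]
      ring
    rw [e, Complex.intCast_re]
    exact_mod_cast neg_nonneg.2 h3

/-- **The `Sym⁴` coefficients are rational.** -/
theorem finrank_two_eq_one (h : IsArithmeticSystem S N ω a) : finrank ℚ (adjoin ℚ (traceSet S ω a 2)) = 1 := by
  by_contra hk
  have h1 := degree_lt h
  have h2 : finrank ℚ (adjoin ℚ (traceSet S ω a 2)) ∣ finrank ℚ (adjoin ℚ (traceSet S ω a 1)) :=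
    finrank_dvd_of_le_right adjoin_le
  have h3 : 0 < finrank ℚ (adjoin ℚ (traceSet S ω a 2)) := finrank_pos
  have h4 : 0 < finrank ℚ (adjoin ℚ (traceSet S ω a 1)) := finrank_pos
  obtain ⟨m, hm⟩ := h2
  have hm0 : 0 < m := by
    rcases Nat.eq_zero_or_pos m with h5 | h5
    · rw [h5, mul_zero] at hm; omega
    · exact h5
  have hk2 : 2 ≤ finrank ℚ (adjoin ℚ (traceSet S ω a 2)) := by omega
  have hm1 : m = 1 := by
    by_contra hm1
    have : 2 ≤ m := by omega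
    nlinarith
  rw [hm1, mul_one] at hm
  exact not_quadratic h (by omega) hk

theorem exists_int_lift_two (h : IsArithmeticSystem S N ω a) {p : ℕ} (hp : p.Prime) (hpS : p ∉ S) :
    ∃ e : ℤ, yy ω a p ^ 2 - yy ω a p = (e : E) := by
  have h1 := finrank_eq_one_iff.1 (finrank_two_eq_one h)
  have h2 : liftTrace (normSq ω a p) 2 ∈ adjoin ℚ (traceSet S ω a 2) := subset_adjoin ℚ _ ⟨p, hp, hpS, rfl⟩
  rw [h1, IntermediateField.mem_bot] at h2
  obtain ⟨r, hr⟩ := h2
  have h3 : IsIntegral ℤ (algebraMap ℚ E r) := by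
    rw [hr, lift_two_eq]
    exact (((isIntegral_yy h hp hpS).pow 2).sub (isIntegral_yy h hp hpS)).sub isIntegral_one
  have h4 : IsIntegral ℤ r := (isIntegral_algHom_iff ((Algebra.ofId ℚ E).restrictScalars ℤ)
    (algebraMap ℚ E).injective).1 h3
  obtain ⟨n, hn⟩ := (IsIntegrallyClosed.isIntegral_iff (R := ℤ) (K := ℚ)).1 h4
  refine ⟨n + 1, ?_⟩
  have h5 : yy ω a p ^ 2 - yy ω a p - 1 = (n : E) := by
    rw [← lift_two_eq, ← hr, ← hn]
    simp
  push_cast
  linear_combination h5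

end Pool.Agent.Helper717Ico
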