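import Mathlib
import Pool.Agent.Helper717_Ico.Quadratic

/-!
# The possible values of the trace of `Ad π_p`
-/

set_option autoImplicit false

namespace Pool.Agent.Helper717Ico

open Filter Topology Module Polynomial

variable {E : Type*} [Field E] [NumberField E]

/-- For a root `y` of `Y² - Y - e` which is not rational every `1 - σ y` is a conjugate. -/
theorem exists_conj {y : E} {e : ℚ} (he : y ^ 2 - y = (e : E)) (hy : y ∉ (algebraMap ℚ E).range) (σ : E →+* ℂ) :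
    ∃ τ : E →+* ℂ, τ y = 1 - σ y := by
  have hint : IsIntegral ℚ y := Algebra.IsIntegral.isIntegral y
  have hmonic : (X ^ 2 - X - C e : ℚ[X]).Monic := by
    have : (X ^ 2 - X - C e : ℚ[X]) = X ^ 2 + (-X - C e) := by ring
    rw [this]
    apply monic_X_pow_add
    refine lt_of_le_of_lt (degree_sub_le _ _) ?_
    rw [degree_neg, degree_X]
    refine max_lt (by norm_num) (lt_of_le_of_lt degree_C_le (by norm_num))
  have hdeg : (X ^ 2 - X - C e : ℚ[X]).natDegree = 2 := by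
    compute_degree!
  have hroot : aeval y (X ^ 2 - X - C e : ℚ[X]) = 0 := by
    simp [he]
  have hdvd := minpoly.dvd ℚ y hroot
  have h2 : 2 ≤ (minpoly ℚ y).natDegree := (minpoly.two_le_natDegree_iff hint).2 hy
  have heq : minpoly ℚ y = X ^ 2 - X - C e := by
    symm
    exact (eq_of_monic_of_dvd_of_natDegree_le (minpoly.monic hint) hmonic hdvd (by rw [hdeg]; exact h2))
  have h3 : (1 - σ y) ∈ (minpoly ℚ y).rootSet ℂ := by
    rw [mem_rootSet]
    refine ⟨minpoly.ne_zero hint, ?_⟩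
    rw [heq]
    have : σ (y ^ 2 - y) = σ (e : E) := by rw [he]
    rw [map_sub, map_pow, map_ratCast] at this
    simp
    linear_combination this
  rw [← NumberField.Embeddings.range_eval_eq_rootSet_minpoly] at h3
  obtain ⟨τ, hτ⟩ := h3
  exact ⟨τ, hτ⟩

variable {S : Finset ℕ} {N : ℕ} {ω : DirichletCharacter E N} {a : ℕ → E}

/-- **The possible values.** -/
theorem yy_cases (h : IsArithmeticSystem S N ω a) {p : ℕ} (hp : p.Prime) (hpS : p ∉ S) :
    (∃ m : ℤ, -1 ≤ m ∧ yy ω a p = (m : E)) ∨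
      (yy ω a p ^ 2 = yy ω a p + 1 ∧ yy ω a p ∉ (algebraMap ℚ E).range) := by
  obtain ⟨σ⟩ : Nonempty (E →+* ℂ) := inferInstance
  have hint := isIntegral_yy h hp hpS
  by_cases hy : yy ω a p ∈ (algebraMap ℚ E).range
  · left
    obtain ⟨r, hr⟩ := hy
    rw [← hr] at hint
    have h4 : IsIntegral ℤ r := (isIntegral_algHom_iff ((Algebra.ofId ℚ E).restrictScalars ℤ)
      (algebraMap ℚ E).injective).1 hint
    obtain ⟨n, hn⟩ := (IsIntegrallyClosed.isIntegral_iff (R := ℤ) (K := ℚ)).1 h4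
    have h5 : yy ω a p = (n : E) := by rw [← hr, ← hn]; simp
    refine ⟨n, ?_, h5⟩
    have h6 := sigma_yy h σ hp hpS
    rw [h5, map_intCast] at h6
    have h7 : (n : ℝ) = ‖σ (a p)‖ ^ 2 - 1 := by exact_mod_cast h6
    have : (-1 : ℝ) ≤ n := by rw [h7]; linarith [sq_nonneg ‖σ (a p)‖]
    exact_mod_cast this
  · right
    refine ⟨?_, hy⟩
    obtain ⟨e, he⟩ := exists_int_lift_two h hp hpS
    obtain ⟨τ, hτ⟩ := exists_conj (e := (e : ℚ)) (by rw [he]; simp) hy σ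
    have h1 := sigma_yy h σ hp hpS
    have h2 := sigma_yy h τ hp hpS
    have h3 : σ (yy ω a p) ^ 2 - σ (yy ω a p) = (e : ℂ) := by
      rw [← map_pow, ← map_sub, he, map_intCast]
    rw [hτ, h1] at h2
    rw [h1] at h3
    have h2' : (1 - (‖σ (a p)‖ ^ 2 - 1) : ℝ) = ‖τ (a p)‖ ^ 2 - 1 := by exact_mod_cast h2
    have h3' : ((‖σ (a p)‖ ^ 2 - 1) ^ 2 - (‖σ (a p)‖ ^ 2 - 1) : ℝ) = e := by exact_mod_cast h3
    have hA := sq_nonneg ‖σ (a p)‖
    have hB := sq_nonneg ‖τ (a p)‖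
    have h4 : (e : ℝ) ≤ 2 := by
      rw [← h3']
      nlinarith [mul_nonneg hA hB]
    have h5 : (-1 : ℝ) < e := by
      rw [← h3']
      nlinarith [sq_nonneg (2 * (‖σ (a p)‖ ^ 2 - 1) - 1)]
    have h4' : e ≤ 2 := by exact_mod_cast h4
    have h5' : -1 < e := by exact_mod_cast h5
    have : e = 0 ∨ e = 1 ∨ e = 2 := by omega
    rcases this with rfl | rfl | rfl
    · exfalso
      have : yy ω a p * (yy ω a p - 1) = 0 := by
        push_cast at he
        linear_combination he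
      rcases mul_eq_zero.1 this with h6 | h6
      · exact hy ⟨0, by rw [h6]; simp⟩
      · exact hy ⟨1, by rw [sub_eq_zero.1 h6]; simp⟩
    · push_cast at he
      linear_combination he
    · exfalso
      have : (yy ω a p - 2) * (yy ω a p + 1) = 0 := by
        push_cast at he
        linear_combination he
      rcases mul_eq_zero.1 this with h6 | h6
      · exact hy ⟨2, by rw [sub_eq_zero.1 h6]; simp⟩
      · exact hy ⟨-1, by rw [eq_neg_of_add_eq_zero_left h6]; simp⟩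

/-- A general comparison of means when the coefficient field is `ℚ(√5)`. -/
theorem mean_compare (h : IsArithmeticSystem S N ω a) {p₀ : ℕ} (hp₀ : p₀.Prime) (hpS₀ : p₀ ∉ S)
    (h0 : yy ω a p₀ ^ 2 = yy ω a p₀ + 1) {σ τ : E →+* ℂ} (hτ : τ (yy ω a p₀) = 1 - σ (yy ω a p₀))
    (f : ℕ → ℂ) (c₀ c₁ c₂ c₃ κ : ℂ) (C : ℝ) (hC : 0 ≤ C)
    (h1 : ∀ (p : ℕ) (m : ℤ), p.Prime → p ∉ S → -1 ≤ m → σ (yy ω a p) = m →
      ‖f p - (c₃ * m ^ 3 + c₂ * m ^ 2 + c₁ * m + c₀)‖ ≤ C * ((m + 1) * m * ((m - 2) * (m - 3))))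
    (h2 : ∀ p : ℕ, p.Prime → p ∉ S → σ (yy ω a p) ^ 2 = σ (yy ω a p) + 1 →
      f p = 2 * c₃ + 3 / 2 * c₂ + 1 / 2 * c₁ + c₀ + 5 * κ) :
    HasPrimeMean S f (c₃ + c₂ + c₀ + 2 * κ) := by
  have hs0 : σ (yy ω a p₀) ^ 2 = σ (yy ω a p₀) + 1 := by
    rw [← map_pow, h0, map_add, map_one]
  have hne : σ (yy ω a p₀) ≠ τ (yy ω a p₀) := by
    rw [hτ]
    intro he
    have : σ (yy ω a p₀) = 1 / 2 := by linear_combination he / 2
    rw [this] at hs0
    norm_num at hs0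
  have hdich : ∀ p : ℕ, p.Prime → p ∉ S → (∃ m : ℤ, -1 ≤ m ∧ σ (yy ω a p) = m ∧ τ (yy ω a p) = m) ∨
      (σ (yy ω a p) ^ 2 = σ (yy ω a p) + 1 ∧ τ (yy ω a p) = 1 - σ (yy ω a p)) := by
    intro p hp hpS
    rcases yy_cases h hp hpS with ⟨m, hm, he⟩ | ⟨he, -⟩
    · left
      exact ⟨m, hm, by rw [he, map_intCast], by rw [he, map_intCast]⟩
    · right
      refine ⟨by rw [← map_pow, he, map_add, map_one], ?_⟩
      have h3 : (yy ω a p - yy ω a p₀) * (yy ω a p - (1 - yy ω a p₀)) = 0 := by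
        linear_combination he - h0
      rcases mul_eq_zero.1 h3 with h4 | h4
      · rw [sub_eq_zero.1 h4, hτ]
      · rw [sub_eq_zero.1 h4, map_sub, map_sub, map_one, map_one, hτ]
  have mg : HasPrimeMean S (fun p => 1 / 2 * ((σ (yy ω a p) ^ 4 - 4 * σ (yy ω a p) ^ 3 + σ (yy ω a p) ^ 2 +
      6 * σ (yy ω a p)) + (τ (yy ω a p) ^ 4 - 4 * τ (yy ω a p) ^ 3 + τ (yy ω a p) ^ 2 + 6 * τ (yy ω a p)))) 0 := by
    have e : ∀ σ : E →+* ℂ, HasPrimeMean S (fun p => σ (yy ω a p) ^ 4 - 4 * σ (yy ω a p) ^ 3 +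
        σ (yy ω a p) ^ 2 + 6 * σ (yy ω a p)) 0 := by
      intro σ
      refine ((((mean_y4 h σ).add ((mean_y3 h σ).const_mul (-4))).add (mean_y2 h σ)).add
        ((mean_y1 h σ).const_mul 6)).congr (fun p _ _ => by ring) (by norm_num)
    refine (((e σ).add (e τ)).const_mul (1 / 2)).congr (fun p _ _ => rfl) (by norm_num)
  have mL : HasPrimeMean S (fun p => c₃ * ((σ (yy ω a p) ^ 3 + τ (yy ω a p) ^ 3) / 2) +
      c₂ * ((σ (yy ω a p) ^ 2 + τ (yy ω a p) ^ 2) / 2) + c₁ * ((σ (yy ω a p) + τ (yy ω a p)) / 2) + c₀ +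
      κ * (σ (yy ω a p) - τ (yy ω a p)) ^ 2) (c₃ + c₂ + c₀ + 2 * κ) := by
    have := (((((mean_y3 h σ).add (mean_y3 h τ)).const_mul (c₃ / 2)).add
      (((mean_y2 h σ).add (mean_y2 h τ)).const_mul (c₂ / 2 + κ))).add
      (((mean_y1 h σ).add (mean_y1 h τ)).const_mul (c₁ / 2))).add
      (((mean_one h).const_mul c₀).add ((mean_y1y1 h σ τ hp₀ hpS₀ hne).const_mul (-2 * κ)))
    refine this.congr (fun p _ _ => by ring) (by ring)
  have mD := HasPrimeMean.of_bounded (f := fun p => f p - (c₃ * ((σ (yy ω a p) ^ 3 + τ (yy ω a p) ^ 3) / 2) +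
      c₂ * ((σ (yy ω a p) ^ 2 + τ (yy ω a p) ^ 2) / 2) + c₁ * ((σ (yy ω a p) + τ (yy ω a p)) / 2) + c₀ +
      κ * (σ (yy ω a p) - τ (yy ω a p)) ^ 2)) mg C ?_
  · refine (mD.add mL).congr (fun p _ _ => by ring) (by ring)
  · intro p hp hpS
    rcases hdich p hp hpS with ⟨m, hm, hσ, hτ'⟩ | ⟨hσ, hτ'⟩
    · have h3 := h1 p m hp hpS hm hσ
      rw [hσ, hτ']
      have e1 : (1 / 2 * (((m : ℂ) ^ 4 - 4 * (m : ℂ) ^ 3 + (m : ℂ) ^ 2 + 6 * (m : ℂ)) +
          ((m : ℂ) ^ 4 - 4 * (m : ℂ) ^ 3 + (m : ℂ) ^ 2 + 6 * (m : ℂ)))) =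
          (((m + 1) * m * ((m - 2) * (m - 3)) : ℝ) : ℂ) := by
        push_cast
        ring
      rw [e1, Complex.ofReal_re]
      refine le_of_eq_of_le ?_ h3
      congr 1
      ring
    · have h3 := h2 p hp hpS hσ
      rw [hτ']
      have e1 : f p - (c₃ * ((σ (yy ω a p) ^ 3 + (1 - σ (yy ω a p)) ^ 3) / 2) +
          c₂ * ((σ (yy ω a p) ^ 2 + (1 - σ (yy ω a p)) ^ 2) / 2) +
          c₁ * ((σ (yy ω a p) + (1 - σ (yy ω a p))) / 2) + c₀ +
          κ * (σ (yy ω a p) - (1 - σ (yy ω a p))) ^ 2) = 0 := by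
        rw [h3]
        linear_combination (-(3 / 2) * c₃ - c₂ - 4 * κ) * hσ
      have e2 : 1 / 2 * ((σ (yy ω a p) ^ 4 - 4 * σ (yy ω a p) ^ 3 + σ (yy ω a p) ^ 2 + 6 * σ (yy ω a p)) +
          ((1 - σ (yy ω a p)) ^ 4 - 4 * (1 - σ (yy ω a p)) ^ 3 + (1 - σ (yy ω a p)) ^ 2 +
            6 * (1 - σ (yy ω a p)))) = 0 := by
        linear_combination (σ (yy ω a p) ^ 2 - σ (yy ω a p) - 2) * hσ
      rw [e1, e2]
      simp

end Pool.Agent.Helper717Ico
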