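import Mathlib
import Pool.Agent.Helper717_Ico.Values

/-!
# The coefficients of `Ad π` are not all rational
-/

set_option autoImplicit false

namespace Pool.Agent.Helper717Ico

open Filter Topology Module Polynomial

theorem isAlgebraic_closure : Algebra.IsAlgebraic ℚ (AlgebraicClosure ℚ) := AlgebraicClosure.isAlgebraic ℚ

theorem normal_closure : Normal ℚ (AlgebraicClosure ℚ) := by
  have := isAlgebraic_closure
  have h : IsAlgClosure ℚ (AlgebraicClosure ℚ) := ⟨inferInstance, this⟩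
  exact IsAlgClosure.normal ℚ (AlgebraicClosure ℚ)

theorem exists_aut_sqrt_three : ∃ (r : AlgebraicClosure ℚ) (g : AlgebraicClosure ℚ ≃ₐ[ℚ] AlgebraicClosure ℚ),
    r ^ 2 = 3 ∧ g r = -r := by
  have := isAlgebraic_closure
  have := normal_closure
  obtain ⟨r, hr⟩ := IsAlgClosed.exists_pow_nat_eq (3 : AlgebraicClosure ℚ) (n := 2) (by norm_num)
  have hint : IsIntegral ℚ r := Algebra.IsIntegral.isIntegral r
  have hy : r ∉ (algebraMap ℚ (AlgebraicClosure ℚ)).range := by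
    rintro ⟨q, rfl⟩
    have h1 : algebraMap ℚ (AlgebraicClosure ℚ) (q ^ 2) = algebraMap ℚ (AlgebraicClosure ℚ) 3 := by
      rw [map_pow, hr, map_ofNat]
    have h2 : q ^ 2 = 3 := (algebraMap ℚ (AlgebraicClosure ℚ)).injective h1
    have h3 : Irrational (Real.sqrt 3) := by
      have := Nat.Prime.irrational_sqrt Nat.prime_three
      simpa using this
    apply h3
    refine ⟨|q|, ?_⟩
    have h4 : (q : ℝ) ^ 2 = 3 := by exact_mod_cast h2
    rw [← h4, Real.sqrt_sq_eq_abs, Rat.cast_abs]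
  have hmonic : (X ^ 2 - C 3 : ℚ[X]).Monic := monic_X_pow_sub_C _ (by norm_num)
  have hdeg : (X ^ 2 - C 3 : ℚ[X]).natDegree = 2 := natDegree_X_pow_sub_C
  have hroot : aeval r (X ^ 2 - C 3 : ℚ[X]) = 0 := by
    rw [map_sub, map_pow, aeval_X, aeval_C, hr, map_ofNat, sub_self]
  have h2 : 2 ≤ (minpoly ℚ r).natDegree := (minpoly.two_le_natDegree_iff hint).2 hy
  have heq : minpoly ℚ r = X ^ 2 - C 3 := by
    symm
    exact eq_of_monic_of_dvd_of_natDegree_le (minpoly.monic hint) hmonic (minpoly.dvd ℚ r hroot)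
      (by rw [hdeg]; exact h2)
  obtain ⟨g, hg⟩ := minpoly.exists_algEquiv_of_root' (K := ℚ) (x := -r) (y := r) hint.isAlgebraic (by
    rw [heq, map_sub, map_pow, aeval_X, aeval_C, neg_sq, hr, map_ofNat, sub_self])
  exact ⟨r, g, hr, hg⟩

variable {E : Type*} [Field E] [NumberField E] {S : Finset ℕ} {N : ℕ} {ω : DirichletCharacter E N} {a : ℕ → E}

/-- If all the coefficients of `Ad π` are rational, then the quadratic symbol of `ℚ(|a_p|)` on the values
`|a_p|² = 1, 3` is a Dirichlet character. -/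
theorem exists_theta (h : IsArithmeticSystem S N ω a) (hN : 0 < N)
    (hall : ∀ p : ℕ, p.Prime → p ∉ S → ∃ m : ℤ, yy ω a p = (m : E)) :
    ∃ (M : ℕ) (θ : DirichletCharacter ℂ M), 0 < M ∧ ∀ p : ℕ, p.Prime → p ∉ S →
      (yy ω a p = 0 → θ (p : ZMod M) = 1) ∧ (yy ω a p = 2 → θ (p : ZMod M) = -1) := by
  have := isAlgebraic_closure
  obtain ⟨r, g, hr, hg⟩ := exists_aut_sqrt_three
  have hr0 : r ≠ 0 := by
    rintro rfl
    norm_num at hr
  -- the embeddings
  let j : E →ₐ[ℚ] AlgebraicClosure ℚ := IsAlgClosed.lift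
  let ι : AlgebraicClosure ℚ →ₐ[ℚ] ℂ := IsAlgClosed.lift
  let σ : E →+* ℂ := (ι : AlgebraicClosure ℚ →+* ℂ).comp (j : E →+* AlgebraicClosure ℚ)
  let τ : E →+* ℂ := ((ι : AlgebraicClosure ℚ →+* ℂ).comp (g : AlgebraicClosure ℚ →+* AlgebraicClosure ℚ)).comp
    (j : E →+* AlgebraicClosure ℚ)
  have hσ : ∀ x, σ x = ι (j x) := fun _ => rfl
  have hτ : ∀ x, τ x = ι (g (j x)) := fun _ => rfl
  obtain ⟨M, χ, hM, hχ⟩ := h.multiplicity_one σ τ (by
    intro p hp hpS
    obtain ⟨m, hm⟩ := hall p hp hpS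
    rw [normSq_eq, hm]
    simp)
  -- the action of `g` on the roots of unity
  have hn0 : 2 * Nat.totient N ≠ 0 := by
    have := Nat.totient_pos.2 hN
    omega
  have : NeZero (2 * Nat.totient N) := ⟨hn0⟩
  obtain ⟨c, hc⟩ := rootsOfUnity.integer_power_of_ringEquiv (2 * Nat.totient N)
    (g : AlgebraicClosure ℚ ≃+* AlgebraicClosure ℚ)
  have hc' : ∀ b : AlgebraicClosure ℚ, b ^ (2 * Nat.totient N) = 1 → g b = b ^ c := by
    intro b hb
    have hb0 : b ≠ 0 := by
      rintro rfl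
      rw [zero_pow hn0] at hb
      exact zero_ne_one hb
    have hmem : Units.mk0 b hb0 ∈ rootsOfUnity (2 * Nat.totient N) (AlgebraicClosure ℚ) := by
      rw [mem_rootsOfUnity]
      ext
      simp [hb]
    have := hc ⟨Units.mk0 b hb0, hmem⟩
    simpa using this
  have hodd : Odd c := by
    have h1 := hc' (-1) (by rw [pow_mul]; norm_num)
    rw [map_neg, map_one] at h1
    rcases Int.even_or_odd c with h2 | h2
    · exfalso
      rw [h2.neg_one_zpow] at h1
      norm_num at h1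
    · exact h2
  obtain ⟨t, ht⟩ := hodd
  -- the key computation
  have key : ∀ p : ℕ, p.Prime → p ∉ S → ∀ (e ε : AlgebraicClosure ℚ), e ≠ 0 → g e = ε * e →
      j (normSq ω a p) = e ^ 2 → g (j (a p)) = ε * (j (ω (p : ZMod N))) ^ t * j (a p) ∧ j (a p) ≠ 0 := by
    intro p hp hpS e ε he0 hge hz
    have hw0 : j (ω (p : ZMod N)) ≠ 0 := (map_ne_zero j).2 (omega_ne_zero h hp hpS)
    obtain ⟨b, hb⟩ := IsAlgClosed.exists_pow_nat_eq (j (ω (p : ZMod N))) (n := 2) (by norm_num)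
    have hb0 : b ≠ 0 := by
      rintro rfl
      rw [zero_pow (by norm_num)] at hb
      exact hw0 hb.symm
    have hbn : b ^ (2 * Nat.totient N) = 1 := by
      rw [pow_mul, hb, ← map_pow, omega_pow h hp hpS, map_one]
    have hgb := hc' b hbn
    have hgb' : g b = (j (ω (p : ZMod N))) ^ t * b := by
      rw [hgb, ht, ← hb, zpow_add₀ hb0, zpow_mul, zpow_one]
      norm_cast
    have h1 : j (a p) ^ 2 = (e * b) ^ 2 := by
      have : j (normSq ω a p) * j (ω (p : ZMod N)) = j (a p) ^ 2 := by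
        unfold normSq
        rw [map_div₀, map_pow]
        field_simp
      rw [← this, hz, mul_pow, hb]
    rcases sq_eq_sq_iff_eq_or_eq_neg.1 h1 with h2 | h2
    · rw [h2, map_mul, hge, hgb']
      exact ⟨by ring, mul_ne_zero he0 hb0⟩
    · rw [h2, map_neg, map_mul, hge, hgb']
      exact ⟨by ring, neg_ne_zero.2 (mul_ne_zero he0 hb0)⟩
  have key2 : ∀ p : ℕ, p.Prime → p ∉ S → ∀ (e : AlgebraicClosure ℚ) (ε : ℤ), ε ≠ 0 → e ≠ 0 → g e = ε * e →
      j (normSq ω a p) = e ^ 2 → χ (p : ZMod M) = ε * (σ (ω (p : ZMod N))) ^ t ∧ χ (p : ZMod M) ≠ 0 := by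
    intro p hp hpS e ε hε he0 hge hz
    obtain ⟨h1, h2⟩ := key p hp hpS e ε he0 hge hz
    have h3 := hχ p hp hpS
    rw [hτ, hσ, h1, map_mul] at h3
    have h4 : ι (j (a p)) ≠ 0 := (map_ne_zero ι).2 h2
    have h5 := mul_right_cancel₀ h4 h3
    rw [map_mul, map_zpow₀, map_intCast] at h5
    refine ⟨by rw [← h5, hσ], ?_⟩
    rw [← h5]
    exact mul_ne_zero (by exact_mod_cast hε) (zpow_ne_zero _ ((map_ne_zero ι).2 ((map_ne_zero j).2
      (omega_ne_zero h hp hpS))))
  -- the character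
  let ψ : DirichletCharacter ℂ N := ω.ringHomComp σ
  refine ⟨M * N, DirichletCharacter.changeLevel (dvd_mul_right M N) χ *
    (DirichletCharacter.changeLevel (dvd_mul_left N M) ψ) ^ (-t), Nat.mul_pos hM hN, fun p hp hpS => ?_⟩
  have heval : χ (p : ZMod M) ≠ 0 → (DirichletCharacter.changeLevel (dvd_mul_right M N) χ *
      (DirichletCharacter.changeLevel (dvd_mul_left N M) ψ) ^ (-t)) (p : ZMod (M * N)) =
      χ (p : ZMod M) * (σ (ω (p : ZMod N))) ^ (-t) := by
    intro hne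
    have h1 : p.Coprime M := by
      rw [← ZMod.isUnit_iff_coprime]
      by_contra h2
      exact hne (χ.map_nonunit h2)
    have h2 : p.Coprime (M * N) := Nat.Coprime.mul_right h1 (h.coprime p hp hpS)
    have h3 : IsCoprime (p : ℤ) ((M * N : ℕ) : ℤ) := Nat.isCoprime_iff_coprime.2 h2
    have h4 : DirichletCharacter.changeLevel (dvd_mul_right M N) χ (p : ZMod (M * N)) = χ (p : ZMod M) := by
      have := DirichletCharacter.changeLevel_eq_cast_of_dvd' χ (dvd_mul_right M N) h3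
      simpa using this
    have h5 : DirichletCharacter.changeLevel (dvd_mul_left N M) ψ (p : ZMod (M * N)) = σ (ω (p : ZMod N)) := by
      have := DirichletCharacter.changeLevel_eq_cast_of_dvd' ψ (dvd_mul_left N M) h3
      simpa [ψ] using this
    have hu : IsUnit (p : ZMod (M * N)) := (ZMod.isUnit_iff_coprime _ _).2 h2
    rw [MulChar.mul_apply, h4]
    congr 1
    obtain ⟨u, hu'⟩ := hu
    rw [← hu'] at h5 ⊢
    rw [← h5]
    cases t with
    | ofNat n =>
      cases n with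
      | zero => simp
      | succ n =>
        rw [Int.ofNat_eq_natCast, zpow_neg, zpow_natCast, MulChar.inv_apply_eq_inv', MulChar.pow_apply_coe,
          zpow_neg, zpow_natCast]
    | negSucc n =>
      rw [Int.neg_negSucc, zpow_natCast, zpow_natCast, MulChar.pow_apply_coe]
  refine ⟨fun h0 => ?_, fun h0 => ?_⟩
  · obtain ⟨h1, h2⟩ := key2 p hp hpS 1 1 one_ne_zero one_ne_zero (by simp) (by
      rw [normSq_eq, h0]; simp)
    rw [heval h2, h1, Int.cast_one, one_mul, ← zpow_add₀, add_neg_cancel, zpow_zero]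
    exact (map_ne_zero σ).2 (omega_ne_zero h hp hpS)
  · obtain ⟨h1, h2⟩ := key2 p hp hpS r (-1) (by norm_num) hr0 (by rw [hg]; simp) (by
      rw [normSq_eq, h0, hr, map_add, map_ofNat, map_one]; norm_num)
    rw [heval h2, h1, mul_assoc, ← zpow_add₀, add_neg_cancel, zpow_zero]
    · simp
    · exact (map_ne_zero σ).2 (omega_ne_zero h hp hpS)

/-- The comparison of means in the rational case. -/
theorem mean_weight (h : IsArithmeticSystem S N ω a)
    (hall : ∀ p : ℕ, p.Prime → p ∉ S → ∃ m : ℤ, yy ω a p = (m : E)) (σ : E →+* ℂ) (g : ℕ → ℂ) (c : ℂ)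
    (hg : ∀ p, ‖g p‖ ≤ 1) (h0 : ∀ p : ℕ, p.Prime → p ∉ S → yy ω a p = 0 → g p = 1)
    (h2 : ∀ p : ℕ, p.Prime → p ∉ S → yy ω a p = 2 → g p = -1)
    (hm : HasPrimeMean S (fun p => g p * (σ (yy ω a p) + 1) ^ 2) c) : c = -1 := by
  have mH : HasPrimeMean S (fun p => 2 * σ (yy ω a p) ^ 4 - 5 * σ (yy ω a p) ^ 3 - σ (yy ω a p) ^ 2 +
      6 * σ (yy ω a p)) 0 := by
    refine (((((mean_y4 h σ).const_mul 2).add ((mean_y3 h σ).const_mul (-5))).add
      ((mean_y2 h σ).const_mul (-1))).add ((mean_y1 h σ).const_mul 6)).congr (fun p _ _ => by ring) (by norm_num)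
  have mW : HasPrimeMean S (fun p => 3 * (σ (yy ω a p) + 1) - 2 * (σ (yy ω a p) + 1) ^ 2) (-1) := by
    refine ((((mean_y2 h σ).const_mul (-2)).add ((mean_y1 h σ).const_mul (-1))).add
      ((mean_one h).const_mul 1)).congr (fun p _ _ => by ring) (by norm_num)
  have mD := HasPrimeMean.of_bounded (f := fun p => g p * (σ (yy ω a p) + 1) ^ 2 -
    (3 * (σ (yy ω a p) + 1) - 2 * (σ (yy ω a p) + 1) ^ 2)) mH 3 ?_
  · have := hm.unique ((mD.add mW).congr (n := -1) (g := fun p => g p * (σ (yy ω a p) + 1) ^ 2)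
      (fun p _ _ => by ring) (by ring))
    exact this
  · intro p hp hpS
    obtain ⟨m, hm⟩ := hall p hp hpS
    have hm1 : -1 ≤ m := by
      have h6 := sigma_yy h σ hp hpS
      rw [hm, map_intCast] at h6
      have h7 : (m : ℝ) = ‖σ (a p)‖ ^ 2 - 1 := by exact_mod_cast h6
      have : (-1 : ℝ) ≤ m := by rw [h7]; linarith [sq_nonneg ‖σ (a p)‖]
      exact_mod_cast this
    have hσm : σ (yy ω a p) = (m : ℂ) := by rw [hm, map_intCast]
    rw [hσm]
    have e1 : (2 * (m : ℂ) ^ 4 - 5 * (m : ℂ) ^ 3 - (m : ℂ) ^ 2 + 6 * (m : ℂ)) =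
        (((m + 1) * m * ((2 * m - 3) * (m - 2)) : ℤ) : ℂ) := by
      push_cast
      ring
    rw [e1, Complex.intCast_re]
    have hpoly := s4Poly_nonneg hm1
    have hcase : m = -1 ∨ m = 0 ∨ m = 1 ∨ m = 2 ∨ 3 ≤ m := by omega
    rcases hcase with rfl | rfl | rfl | rfl | h3
    · norm_num
    · rw [h0 p hp hpS (by rw [hm]; simp)]
      norm_num
    · have h4 : ‖g p * ((1 : ℂ) + 1) ^ 2 - (3 * ((1 : ℂ) + 1) - 2 * ((1 : ℂ) + 1) ^ 2)‖ ≤ 6 := by
        refine (norm_sub_le _ _).trans ?_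
        rw [norm_mul]
        have e2 : ‖((1 : ℂ) + 1) ^ 2‖ = 4 := by
          rw [show ((1 : ℂ) + 1) ^ 2 = ((4 : ℝ) : ℂ) by norm_num, Complex.norm_real]; norm_num
        have e3 : ‖3 * ((1 : ℂ) + 1) - 2 * ((1 : ℂ) + 1) ^ 2‖ = 2 := by
          rw [show (3 * ((1 : ℂ) + 1) - 2 * ((1 : ℂ) + 1) ^ 2) = ((-2 : ℝ) : ℂ) by norm_num, Complex.norm_real]
          norm_num
        rw [e2, e3]
        nlinarith [hg p]
      have e4 : (((1 + 1) * 1 * ((2 * 1 - 3) * (1 - 2)) : ℤ) : ℝ) = 2 := by norm_num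
      rw [Int.cast_one, e4]
      linarith
    · rw [h2 p hp hpS (by rw [hm]; simp)]
      norm_num
    · have hm3 : (3 : ℝ) ≤ m := by exact_mod_cast h3
      have e2 : ‖((m : ℂ) + 1) ^ 2‖ = ((m : ℝ) + 1) ^ 2 := by
        rw [show ((m : ℂ) + 1) ^ 2 = ((((m : ℝ) + 1) ^ 2 : ℝ) : ℂ) by push_cast; ring, Complex.norm_real]
        exact Real.norm_of_nonneg (sq_nonneg _)
      have e3 : ‖3 * ((m : ℂ) + 1) - 2 * ((m : ℂ) + 1) ^ 2‖ = 2 * ((m : ℝ) + 1) ^ 2 - 3 * (m + 1) := by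
        rw [show (3 * ((m : ℂ) + 1) - 2 * ((m : ℂ) + 1) ^ 2) = ((3 * ((m : ℝ) + 1) - 2 * (m + 1) ^ 2 : ℝ) : ℂ) by
          push_cast; ring, Complex.norm_real, Real.norm_of_nonpos (by nlinarith)]
        ring
      refine (norm_sub_le _ _).trans ?_
      rw [norm_mul, e2, e3]
      have h4 : ‖g p‖ * ((m : ℝ) + 1) ^ 2 ≤ 1 * ((m : ℝ) + 1) ^ 2 :=
        mul_le_mul_of_nonneg_right (hg p) (sq_nonneg _)
      push_cast
      have h5 : (1 : ℝ) ≤ (2 * m - 3) * (m - 2) := by nlinarith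
      have h6 : 0 ≤ ((m : ℝ) + 1) * m := by nlinarith
      nlinarith [mul_le_mul_of_nonneg_left h5 h6]

/-- **Some coefficient of `Ad π` is irrational.** -/
theorem exists_irrational (h : IsArithmeticSystem S N ω a) :
    ∃ p : ℕ, p.Prime ∧ p ∉ S ∧ yy ω a p ^ 2 = yy ω a p + 1 := by
  by_contra hcon
  push Not at hcon
  have hall : ∀ p : ℕ, p.Prime → p ∉ S → ∃ m : ℤ, yy ω a p = (m : E) := by
    intro p hp hpS
    rcases yy_cases h hp hpS with ⟨m, -, hm⟩ | ⟨h1, -⟩
    · exact ⟨m, hm⟩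
    · exact absurd h1 (hcon p hp hpS)
  obtain ⟨σ⟩ : Nonempty (E →+* ℂ) := inferInstance
  obtain ⟨p₁, hp₁, hp₁'⟩ := Nat.exists_infinite_primes (S.sup id + 1)
  have hp₁S : p₁ ∉ S := by
    intro hmem
    have : p₁ ≤ S.sup id := Finset.le_sup (f := id) hmem
    omega
  have hN := modulus_pos h hp₁' hp₁S
  obtain ⟨M, θ, hM, hθ⟩ := exists_theta h hN hall
  have : NeZero M := ⟨hM.ne'⟩
  by_cases h1 : θ = 1
  · have m2 : HasPrimeMean S (fun p => (1 : ℂ) * (σ (yy ω a p) + 1) ^ 2) 2 := by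
      refine (((mean_y2 h σ).add ((mean_y1 h σ).const_mul 2)).add (mean_one h)).congr
        (fun p _ _ => by ring) (by norm_num)
    have := mean_weight h hall σ (fun _ => 1) 2 (fun _ => by simp) (fun _ _ _ _ => rfl) (fun p hp hpS h2 => ?_) m2
    · norm_num at this
    · exfalso
      have h3 := (hθ p hp hpS).2 h2
      rw [h1] at h3
      by_cases h4 : IsUnit (p : ZMod M)
      · rw [MulChar.one_apply h4] at h3
        norm_num at h3
      · rw [MulChar.map_nonunit _ h4] at h3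
        norm_num at h3
  · have m2 : HasPrimeMean S (fun p => θ (p : ZMod M) * (σ (yy ω a p) + 1) ^ 2) 0 := by
      have := (((h.twists M θ hM h1 σ 0).const_mul 2).add ((h.twists M θ hM h1 σ 1).const_mul 3)).add
        (h.twists M θ hM h1 σ 2)
      refine this.congr (fun p _ _ => ?_) (by norm_num)
      simp [liftTrace, yy, map_ofNat]
      ring
    have := mean_weight h hall σ (fun p => θ (p : ZMod M)) 0 (fun p => θ.norm_le_one _)
      (fun p hp hpS h2 => (hθ p hp hpS).1 h2) (fun p hp hpS h2 => (hθ p hp hpS).2 h2) m2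
    norm_num at this

end Pool.Agent.Helper717Ico
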