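import Mathlib
import Pool.Agent.Helper717_Ico.Rational

/-!
# The icosahedral statistics
-/

set_option autoImplicit false

namespace Pool.Agent.Helper717Ico

open Filter Topology Module

open scoped Classical in
/-- The set `A` has the Dirichlet density `d` among the primes outside `S`. -/
def HasDensity (S : Finset ℕ) (A : Set ℕ) (d : ℝ) : Prop :=
  HasPrimeMean S (fun p => if p ∈ A then 1 else 0) (d : ℂ)

variable {E : Type*} [Field E] [NumberField E] {S : Finset ℕ} {N : ℕ} {ω : DirichletCharacter E N} {a : ℕ → E}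

theorem exists_pair (h : IsArithmeticSystem S N ω a) (σ : E →+* ℂ) :
    ∃ (p₀ : ℕ) (τ : E →+* ℂ), p₀.Prime ∧ p₀ ∉ S ∧ yy ω a p₀ ^ 2 = yy ω a p₀ + 1 ∧
      τ (yy ω a p₀) = 1 - σ (yy ω a p₀) := by
  obtain ⟨p₀, hp₀, hpS₀, h0⟩ := exists_irrational h
  have hirr : yy ω a p₀ ∉ (algebraMap ℚ E).range := by
    rintro ⟨q, hq⟩
    rw [← hq] at h0
    have h1 : algebraMap ℚ E ((2 * q - 1) ^ 2) = algebraMap ℚ E 5 := by
      simp only [map_pow, map_sub, map_mul, map_ofNat, map_one]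
      linear_combination 4 * h0
    have h2 : (2 * q - 1) ^ 2 = 5 := (algebraMap ℚ E).injective h1
    have h3 : Irrational (Real.sqrt 5) := by
      have := Nat.Prime.irrational_sqrt Nat.prime_five
      simpa using this
    apply h3
    refine ⟨|2 * q - 1|, ?_⟩
    have h4 : (((2 * q - 1 : ℚ)) : ℝ) ^ 2 = 5 := by exact_mod_cast h2
    rw [← h4, Real.sqrt_sq_eq_abs, Rat.cast_abs]
  obtain ⟨τ, hτ⟩ := exists_conj (e := 1) (by simp [h0]) hirr σ
  exact ⟨p₀, τ, hp₀, hpS₀, h0, hτ⟩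

theorem density_two (h : IsArithmeticSystem S N ω a) (σ : E →+* ℂ) :
    HasDensity S {p | ‖σ (a p)‖ = 2} (1 / 60) := by
  classical
  obtain ⟨p₀, τ, hp₀, hpS₀, h0, hτ⟩ := exists_pair h σ
  have := mean_compare h hp₀ hpS₀ h0 hτ (fun p => if p ∈ {p | ‖σ (a p)‖ = 2} then 1 else 0)
    0 (-2 / 12) (-1 / 12) (1 / 12) (1 / 120) (1 / 12) (by norm_num) ?_ ?_
  · unfold HasDensity
    refine this.congr (fun p _ _ => by congr) ?_
    push_cast
    norm_num
  · intro p m hp hpS hm hσm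
    have h7 : (m : ℝ) = ‖σ (a p)‖ ^ 2 - 1 := by
      have h6 := sigma_yy h σ hp hpS
      rw [hσm] at h6
      exact_mod_cast h6
    have hiff : p ∈ {p | ‖σ (a p)‖ = 2} ↔ m = 3 := by
      rw [Set.mem_ofPred_eq]
      constructor
      · intro h1
        rw [h1] at h7
        have : (m : ℝ) = 3 := by linarith
        exact_mod_cast this
      · intro h1
        rw [h1] at h7
        have h2 : ‖σ (a p)‖ ^ 2 = 2 ^ 2 := by push_cast at h7; linarith
        exact (sq_eq_sq₀ (norm_nonneg _) (by norm_num)).1 h2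
    simp only [hiff]
    have hcase : m = -1 ∨ m = 0 ∨ m = 1 ∨ m = 2 ∨ m = 3 ∨ 4 ≤ m := by omega
    rcases hcase with rfl | rfl | rfl | rfl | rfl | h4
    · norm_num
    · norm_num
    · norm_num
    · norm_num
    · norm_num
    · rw [if_neg (by omega)]
      have hm4 : (4 : ℝ) ≤ m := by exact_mod_cast h4
      have e : (0 : ℂ) - (1 / 12 * (m : ℂ) ^ 3 + -1 / 12 * (m : ℂ) ^ 2 + -2 / 12 * (m : ℂ) + 0) =
          ((-(m * (m + 1) * (m - 2) / 12) : ℝ) : ℂ) := by push_cast; ring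
      have hpos : (0 : ℝ) ≤ m * (m + 1) * (m - 2) / 12 := by
        apply div_nonneg _ (by norm_num)
        exact mul_nonneg (mul_nonneg (by linarith) (by linarith)) (by linarith)
      rw [e, Complex.norm_real, norm_neg, Real.norm_of_nonneg hpos]
      have : (m + 1) * m * ((m - 2) * (m - 3)) - m * (m + 1) * (m - 2) = (m * (m + 1) * (m - 2)) * ((m : ℝ) - 4) := by
        ring
      have h9 : (0 : ℝ) ≤ (m * (m + 1) * (m - 2)) * ((m : ℝ) - 4) :=
        mul_nonneg (by linarith) (by linarith)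
      linarith
  · intro p hp hpS hirr
    have hnot : p ∉ {p | ‖σ (a p)‖ = 2} := by
      intro h1
      rw [Set.mem_ofPred_eq] at h1
      rw [sigma_yy h σ hp hpS, h1] at hirr
      norm_num at hirr
    rw [if_neg hnot]
    norm_num

theorem density_zero (h : IsArithmeticSystem S N ω a) (σ : E →+* ℂ) :
    HasDensity S {p | ‖σ (a p)‖ = 0} (1 / 4) := by
  classical
  obtain ⟨p₀, τ, hp₀, hpS₀, h0, hτ⟩ := exists_pair h σ
  have := mean_compare h hp₀ hpS₀ h0 hτ (fun p => if p ∈ {p | ‖σ (a p)‖ = 0} then 1 else 0)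
    0 (-6 / 12) (5 / 12) (-1 / 12) (-1 / 24) (1 / 12) (by norm_num) ?_ ?_
  · unfold HasDensity
    refine this.congr (fun p _ _ => by congr) ?_
    push_cast
    norm_num
  · intro p m hp hpS hm hσm
    have h7 : (m : ℝ) = ‖σ (a p)‖ ^ 2 - 1 := by
      have h6 := sigma_yy h σ hp hpS
      rw [hσm] at h6
      exact_mod_cast h6
    have hiff : p ∈ {p | ‖σ (a p)‖ = 0} ↔ m = -1 := by
      rw [Set.mem_ofPred_eq]
      constructor
      · intro h1
        rw [h1] at h7
        have : (m : ℝ) = -1 := by linarith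
        exact_mod_cast this
      · intro h1
        rw [h1] at h7
        have h2 : ‖σ (a p)‖ ^ 2 = 0 := by push_cast at h7; linarith
        exact pow_eq_zero_iff (two_ne_zero) |>.1 h2
    simp only [hiff]
    have hcase : m = -1 ∨ m = 0 ∨ m = 1 ∨ m = 2 ∨ m = 3 ∨ 4 ≤ m := by omega
    rcases hcase with rfl | rfl | rfl | rfl | rfl | h4
    · norm_num
    · norm_num
    · norm_num
    · norm_num
    · norm_num
    · rw [if_neg (by omega)]
      have hm4 : (4 : ℝ) ≤ m := by exact_mod_cast h4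
      have e : (0 : ℂ) - (-1 / 12 * (m : ℂ) ^ 3 + 5 / 12 * (m : ℂ) ^ 2 + -6 / 12 * (m : ℂ) + 0) =
          ((m * (m - 2) * (m - 3) / 12 : ℝ) : ℂ) := by push_cast; ring
      have hpos : (0 : ℝ) ≤ m * (m - 2) * (m - 3) / 12 := by
        apply div_nonneg _ (by norm_num)
        exact mul_nonneg (mul_nonneg (by linarith) (by linarith)) (by linarith)
      rw [e, Complex.norm_real, Real.norm_of_nonneg hpos]
      have : (m + 1) * m * ((m - 2) * (m - 3)) - m * (m - 2) * (m - 3) = (m * (m - 2) * (m - 3)) * (m : ℝ) := by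
        ring
      have h9 : (0 : ℝ) ≤ (m * (m - 2) * (m - 3)) * (m : ℝ) :=
        mul_nonneg (by linarith) (by linarith)
      linarith
  · intro p hp hpS hirr
    have hnot : p ∉ {p | ‖σ (a p)‖ = 0} := by
      intro h1
      rw [Set.mem_ofPred_eq] at h1
      rw [sigma_yy h σ hp hpS, h1] at hirr
      norm_num at hirr
    rw [if_neg hnot]
    norm_num

theorem density_one (h : IsArithmeticSystem S N ω a) (σ : E →+* ℂ) :
    HasDensity S {p | ‖σ (a p)‖ = 1} (1 / 3) := by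
  classical
  obtain ⟨p₀, τ, hp₀, hpS₀, h0, hτ⟩ := exists_pair h σ
  have := mean_compare h hp₀ hpS₀ h0 hτ (fun p => if p ∈ {p | ‖σ (a p)‖ = 1} then 1 else 0)
    1 (1 / 6) (-4 / 6) (1 / 6) (-1 / 12) (1 / 6) (by norm_num) ?_ ?_
  · unfold HasDensity
    refine this.congr (fun p _ _ => by congr) ?_
    push_cast
    norm_num
  · intro p m hp hpS hm hσm
    have h7 : (m : ℝ) = ‖σ (a p)‖ ^ 2 - 1 := by
      have h6 := sigma_yy h σ hp hpS
      rw [hσm] at h6
      exact_mod_cast h6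
    have hiff : p ∈ {p | ‖σ (a p)‖ = 1} ↔ m = 0 := by
      rw [Set.mem_ofPred_eq]
      constructor
      · intro h1
        rw [h1] at h7
        have : (m : ℝ) = 0 := by linarith
        exact_mod_cast this
      · intro h1
        rw [h1] at h7
        have h2 : ‖σ (a p)‖ ^ 2 = 1 ^ 2 := by push_cast at h7; linarith
        exact (sq_eq_sq₀ (norm_nonneg _) (by norm_num)).1 h2
    simp only [hiff]
    have hcase : m = -1 ∨ m = 0 ∨ m = 1 ∨ m = 2 ∨ m = 3 ∨ 4 ≤ m := by omega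
    rcases hcase with rfl | rfl | rfl | rfl | rfl | h4
    · norm_num
    · norm_num
    · norm_num
    · norm_num
    · norm_num
    · rw [if_neg (by omega)]
      have hm4 : (4 : ℝ) ≤ m := by exact_mod_cast h4
      have e : (0 : ℂ) - (1 / 6 * (m : ℂ) ^ 3 + -4 / 6 * (m : ℂ) ^ 2 + 1 / 6 * (m : ℂ) + 1) =
          ((-((m + 1) * (m - 2) * (m - 3) / 6) : ℝ) : ℂ) := by push_cast; ring
      have hpos : (0 : ℝ) ≤ (m + 1) * (m - 2) * (m - 3) / 6 := by
        apply div_nonneg _ (by norm_num)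
        exact mul_nonneg (mul_nonneg (by linarith) (by linarith)) (by linarith)
      rw [e, Complex.norm_real, norm_neg, Real.norm_of_nonneg hpos]
      have : (m + 1) * m * ((m - 2) * (m - 3)) - (m + 1) * (m - 2) * (m - 3) =
          ((m + 1) * (m - 2) * (m - 3)) * ((m : ℝ) - 1) := by
        ring
      have h9 : (0 : ℝ) ≤ ((m + 1) * (m - 2) * (m - 3)) * ((m : ℝ) - 1) :=
        mul_nonneg (by linarith) (by linarith)
      linarith
  · intro p hp hpS hirr
    have hnot : p ∉ {p | ‖σ (a p)‖ = 1} := by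
      intro h1
      rw [Set.mem_ofPred_eq] at h1
      rw [sigma_yy h σ hp hpS, h1] at hirr
      norm_num at hirr
    rw [if_neg hnot]
    norm_num

theorem density_golden (h : IsArithmeticSystem S N ω a) (σ : E →+* ℂ) (ε : ℝ) (hε : ε = 1 ∨ ε = -1) :
    HasDensity S {p | ‖σ (a p)‖ = (Real.sqrt 5 + ε) / 2} (1 / 5) := by
  classical
  obtain ⟨p₀, τ, hp₀, hpS₀, h0, hτ⟩ := exists_pair h σ
  have h5 : Real.sqrt 5 ^ 2 = 5 := Real.sq_sqrt (by norm_num)
  have h5pos : 0 < Real.sqrt 5 := Real.sqrt_pos.2 (by norm_num)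
  have h5gt : 2 < Real.sqrt 5 := by
    rw [Real.lt_sqrt (by norm_num)]; norm_num
  have hε2 : ε ^ 2 = 1 := by rcases hε with rfl | rfl <;> norm_num
  have hs0 : σ (yy ω a p₀) ^ 2 = σ (yy ω a p₀) + 1 := by
    rw [← map_pow, h0, map_add, map_one]
  have hne : σ (yy ω a p₀) ≠ τ (yy ω a p₀) := by
    rw [hτ]
    intro he
    have : σ (yy ω a p₀) = 1 / 2 := by linear_combination he / 2
    rw [this] at hs0
    norm_num at hs0
  have m1 := ((((mean_y2 h σ).add (mean_y2 h τ)).add ((mean_y1y1 h σ τ hp₀ hpS₀ hne).const_mul (-2))).const_mul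
    (1 / 10)).add (((mean_y1 h σ).add ((mean_y1 h τ).const_mul (-1))).const_mul ((ε / (2 * Real.sqrt 5) : ℝ) : ℂ))
  unfold HasDensity
  refine m1.congr (fun p hp hpS => ?_) (by push_cast; norm_num)
  have e1 := sigma_yy h σ hp hpS
  have hsq : ‖σ (a p)‖ = (Real.sqrt 5 + ε) / 2 ↔ ‖σ (a p)‖ ^ 2 - 1 = (1 + ε * Real.sqrt 5) / 2 := by
    have h10 : 0 ≤ (Real.sqrt 5 + ε) / 2 := by rcases hε with rfl | rfl <;> linarith
    rw [← sq_eq_sq₀ (norm_nonneg _) h10]
    have : ((Real.sqrt 5 + ε) / 2) ^ 2 = (1 + ε * Real.sqrt 5) / 2 + 1 := by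
      linear_combination h5 / 4 + hε2 / 4
    rw [this]
    constructor <;> intro h11 <;> linarith
  have hdich : (∃ m : ℤ, σ (yy ω a p) = m ∧ τ (yy ω a p) = m) ∨
      (σ (yy ω a p) ^ 2 = σ (yy ω a p) + 1 ∧ τ (yy ω a p) = 1 - σ (yy ω a p)) := by
    rcases yy_cases h hp hpS with ⟨m, hm, he⟩ | ⟨he, -⟩
    · left
      exact ⟨m, by rw [he, map_intCast], by rw [he, map_intCast]⟩
    · right
      refine ⟨by rw [← map_pow, he, map_add, map_one], ?_⟩
      have h3 : (yy ω a p - yy ω a p₀) * (yy ω a p - (1 - yy ω a p₀)) = 0 := by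
        linear_combination he - h0
      rcases mul_eq_zero.1 h3 with h4 | h4
      · rw [sub_eq_zero.1 h4, hτ]
      · rw [sub_eq_zero.1 h4, map_sub, map_sub, map_one, map_one, hτ]
  rcases hdich with ⟨m, h1, h2⟩ | ⟨h1, h2⟩
  · rw [if_neg]
    · rw [h1, h2]; ring
    · rw [Set.mem_ofPred_eq, hsq]
      intro h3
      rw [h1] at e1
      have h4 : (m : ℝ) = ‖σ (a p)‖ ^ 2 - 1 := by exact_mod_cast e1
      rw [h3] at h4
      have h6 : Irrational (Real.sqrt 5) := by
        have := Nat.Prime.irrational_sqrt Nat.prime_five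
        simpa using this
      apply h6
      rcases hε with rfl | rfl
      · exact ⟨2 * m - 1, by push_cast; linarith⟩
      · exact ⟨1 - 2 * m, by push_cast; linarith⟩
  · rw [h2]
    set x : ℝ := ‖σ (a p)‖ ^ 2 - 1 with hx
    rw [e1] at h1 ⊢
    have h1' : x ^ 2 = x + 1 := by exact_mod_cast h1
    have h3 : (2 * x - 1 - ε * Real.sqrt 5) * (2 * x - 1 + ε * Real.sqrt 5) = 0 := by
      linear_combination 4 * h1' - ε ^ 2 * h5 - 5 * hε2
    have e3 : (1 / 10 * ((x : ℂ) ^ 2 + (1 - (x : ℂ)) ^ 2 + -2 * ((x : ℂ) * (1 - (x : ℂ)))) +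
        ((ε / (2 * Real.sqrt 5) : ℝ) : ℂ) * ((x : ℂ) + -1 * (1 - (x : ℂ)))) =
        ((1 / 10 * (2 * x - 1) ^ 2 + ε / (2 * Real.sqrt 5) * (2 * x - 1) : ℝ) : ℂ) := by
      push_cast; ring
    rw [e3]
    rcases mul_eq_zero.1 h3 with h4 | h4
    · have h6 : 2 * x - 1 = ε * Real.sqrt 5 := by linarith
      rw [if_pos, h6]
      · have : 1 / 10 * (ε * Real.sqrt 5) ^ 2 + ε / (2 * Real.sqrt 5) * (ε * Real.sqrt 5) = 1 := by
          field_simp
          linear_combination 2 * (5 + Real.sqrt 5 ^ 2) * hε2 + 2 * h5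
        rw [this]; norm_num
      · rw [Set.mem_ofPred_eq, hsq]; linarith
    · have h6 : 2 * x - 1 = -(ε * Real.sqrt 5) := by linarith
      rw [if_neg, h6]
      · have : 1 / 10 * (-(ε * Real.sqrt 5)) ^ 2 + ε / (2 * Real.sqrt 5) * (-(ε * Real.sqrt 5)) = 0 := by
          field_simp
          linear_combination 2 * ε ^ 2 * h5
        rw [this]; norm_num
      · rw [Set.mem_ofPred_eq, hsq]
        intro h7
        have : ε * Real.sqrt 5 = 0 := by linarith
        rcases mul_eq_zero.1 this with h8 | h8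
        · rw [h8] at hε2; norm_num at hε2
        · exact h5pos.ne' h8

end Pool.Agent.Helper717Ico
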